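import Pool.Agent.Lib.AL.Blue

/-! Properties of the normalised tail probabilities. -/

namespace Pool.Agent.Lib.AL

open Finset

namespace BETA

variable {P : Type} [Fintype P] [DecidableEq P]

lemma ind_nonneg {τ : ℝ} (h : 0 < τ) (k n : ℕ) : 0 ≤ ind τ k n := by
  unfold ind
  split_ifs <;> positivity

lemma ind_mono {τ : ℝ} (h : 0 < τ) (k : ℕ) {n n' : ℕ} (hn : n ≤ n') : ind τ k n ≤ ind τ k n' := by
  by_cases hk : k ≤ n
  · simp [ind, hk, hk.trans hn]
  · have : ind τ k n = 0 := by simp [ind, hk]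
    rw [this]
    exact ind_nonneg h _ _

omit [Fintype P] in
lemma pointwise {τ : ℝ} (h : 0 < τ) (k : ℕ) (S W : Finset P) :
    ((k : ℝ) + 1) * ind τ (k + 1) (W ∩ S).card
      ≤ ∑ x ∈ S, (if x ∈ W then 1 / τ else 0) * ind τ k (W ∩ S.erase x).card := by
  have h0 : ∀ x, 0 ≤ (if x ∈ W then 1 / τ else 0) * ind τ k (W ∩ S.erase x).card := fun x =>
    mul_nonneg (by split_ifs <;> positivity) (ind_nonneg h _ _)
  by_cases hk : k + 1 ≤ (W ∩ S).card
  · refine le_trans ?_ (Finset.sum_le_sum_of_subset_of_nonneg (s := W ∩ S)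
      Finset.inter_subset_right fun x _ _ => h0 x)
    rw [Finset.sum_congr rfl (g := fun _ => 1 / τ ^ (k + 1)) fun x hx => ?_]
    · rw [Finset.sum_const, nsmul_eq_mul, ind, if_pos hk]
      exact mul_le_mul_of_nonneg_right (by exact_mod_cast hk) (by positivity)
    · have h1 : k ≤ (W ∩ S.erase x).card := by
        rw [Finset.inter_erase, Finset.card_erase_of_mem hx]
        omega
      rw [if_pos (Finset.mem_inter.1 hx).1, ind, if_pos h1]
      field_simp
      ring
  · rw [ind, if_neg hk, mul_zero]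
    exact Finset.sum_nonneg fun x _ => h0 x

end BETA

theorem st_BETA (hB : St_BIN) : St_BETA := by
  intro P _ _ τ h0 h1
  refine ⟨fun k S => Ex_nonneg h0.le h1 fun W => BETA.ind_nonneg h0 _ _, fun S => ?_,
    fun k S S' hS => Ex_mono h0.le h1 fun W => BETA.ind_mono h0 k
      (Finset.card_le_card (Finset.inter_subset_inter_left hS)), fun k S => ?_, fun k S => ?_⟩
  · simp [beta, ind, Ex_const]
  · rw [beta, ← Ex_const_mul]
    refine (Ex_mono h0.le h1 fun W => BETA.pointwise h0 k S W).trans (le_of_eq ?_)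
    rw [Ex_sum]
    refine Finset.sum_congr rfl fun x _ => ?_
    rw [Ex_mul_of_disj τ (A := {x}) (A' := S.erase x)
      (f := fun W => if x ∈ W then 1 / τ else 0) (g := fun W => ind τ k (W ∩ S.erase x).card)
      (fun W => by simp) (dep_inter _ fun U => ind τ k U.card) (by simp), Ex_mem, beta,
      mul_one_div_cancel h0.ne', mul_zero, add_zero, one_mul]
  · have h2 : Ex τ (fun W : Finset P => 1 / τ ^ k * if (W ∩ S).card = k then 1 else 0)
        ≤ beta τ k S := Ex_mono h0.le h1 fun W => by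
      by_cases hk : (W ∩ S).card = k
      · simp [ind, hk]
      · rw [if_neg hk, mul_zero]
        exact BETA.ind_nonneg h0 _ _
    rw [Ex_const_mul, hB] at h2
    refine le_trans ?_ h2
    have h3 : 1 / τ ^ k * ((S.card.choose k : ℝ) * τ ^ k * (1 - τ) ^ (S.card - k))
        = (S.card.choose k : ℝ) * (1 - τ) ^ (S.card - k) := by
      field_simp
    rw [h3]
    exact mul_le_mul_of_nonneg_left
      (pow_le_pow_of_le_one (by linarith) (by linarith) (Nat.sub_le _ _)) (by positivity)

end Pool.Agent.Lib.AL
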