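import Pool.Agent.Lib.AL.Blue

/-! The core has many points. -/

namespace Pool.Agent.Lib.AL

open Finset

namespace BIG

variable {P L : Type} [Fintype P] [Fintype L] [DecidableEq P] [DecidableEq L]

/-- Number of lines of `G` through `x` with exactly `j` points of `S` other than `x`. -/
noncomputable def cnt (π : Pl P L) (G : Finset L) (S : Finset P) (j : ℕ) (x : P) : ℝ :=
  ∑ l ∈ thru π G x, if (S ∩ (π.pts l).erase x).card = j then 1 else 0

theorem cnt_le (π : Pl P L) (G : Finset L) (S : Finset P) (j : ℕ) (x : P) :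
    cnt π G S j x ≤ 2 * π.q := by
  have h1 : cnt π G S j x ≤ ∑ _l ∈ thru π G x, (1 : ℝ) :=
    Finset.sum_le_sum fun l _ => by split_ifs <;> norm_num
  rw [Finset.sum_const, nsmul_eq_mul, mul_one] at h1
  have h2 : ((thru π G x).card : ℝ) ≤ π.q + 1 := by exact_mod_cast card_thru_le π G x
  have := two_le_q π
  linarith

theorem lev_le (π : Pl P L) (G : Finset L) (S : Finset P) (j : ℕ) :
    (lev π G S (j + 1) : ℝ) ≤ ∑ x ∈ S, cnt π G S j x := by
  unfold cnt
  rw [sum_thru π G S (fun x l => if (S ∩ (π.pts l).erase x).card = j then (1 : ℝ) else 0), lev,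
    Finset.card_filter]
  push_cast
  refine Finset.sum_le_sum fun l _ => ?_
  by_cases h : (S ∩ π.pts l).card = j + 1
  · rw [if_pos h]
    obtain ⟨x, hx⟩ : (S ∩ π.pts l).Nonempty := Finset.card_pos.1 (by omega)
    have h1 : (S ∩ (π.pts l).erase x).card = j := by
      rw [Finset.inter_erase, Finset.card_erase_of_mem hx, h]; rfl
    have h2 := Finset.single_le_sum
      (f := fun y => if (S ∩ (π.pts l).erase y).card = j then (1 : ℝ) else 0)
      (fun y _ => by split_ifs <;> norm_num) hx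
    simpa [h1] using h2
  · rw [if_neg h]
    exact Finset.sum_nonneg fun y _ => by split_ifs <;> norm_num

theorem cnt_le_mean (hP : St_POLY) (π : Pl P L) {τ : ℝ} (h0 : 0 < τ) (h1 : τ < 1) (G : Finset L)
    (S : Finset P) {j : ℕ} (r : ℕ) (hh : 1 / 2 ≤ (1 - τ) ^ j) (x : P) :
    cnt π G S j x ≤ 2 * mean π τ G (fj τ j (j + 2 * r)) S x := by
  unfold cnt mean
  rw [Finset.mul_sum]
  refine Finset.sum_le_sum fun l _ => ?_
  obtain ⟨g0, g1, -⟩ := (hP P τ j r h0 h1).2 (S ∩ (π.pts l).erase x)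
  change _ ≤ 2 * gj τ j (j + 2 * r) (S ∩ (π.pts l).erase x)
  split_ifs with h
  · rw [g1 h]; linarith
  · linarith

end BIG

theorem st_BIG (hP : St_POLY) : St_BIG := by
  intro P L _ _ _ _ π a τ G B' F j h0 h1 hj hh hc hl hs
  set Y := core π τ G j (j + 2 * a.r) (a.η (j + 1) / (8 * a.C)) F with hY
  have hq := two_le_q π
  have hq0 := q_pos π
  have hC : (1 : ℝ) ≤ a.C := by exact_mod_cast a.C_pos
  have hη := a.η_pos (j + 1)
  have hh' : 1 / 2 ≤ (1 - τ) ^ j :=
    hh.trans (pow_le_pow_of_le_one (by linarith) (by linarith) hj.le)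
  set φ : ℝ := a.η (j + 1) / (8 * a.C) with hφ
  have hφ0 : 0 < φ := by positivity
  have hε : a.ε ≤ φ := by
    have h2 := a.η_gap j hj
    have h3 := a.η_pos j
    have h4 : a.η (j + 1) / (16 * a.C) = φ / 2 := by rw [hφ]; field_simp; ring
    linarith
  have hout : ∀ x, x ∉ Y → BIG.cnt π G B' j x ≤ 4 * φ * π.q := by
    intro x hx
    rw [hY, mem_core, not_le] at hx
    have h2 := BIG.cnt_le_mean hP π h0 h1 G B' a.r hh' x
    have h3 := (abs_le.1 (hs x)).1
    have h4 : a.ε * π.q ≤ φ * π.q := mul_le_mul_of_nonneg_right hε hq0.le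
    linarith
  have hpt : ∀ x ∈ B', BIG.cnt π G B' j x
      ≤ (if x ∈ Y then 2 * (π.q : ℝ) else 0) + 4 * φ * π.q := by
    intro x _
    split_ifs with hx
    · have := BIG.cnt_le π G B' j x
      have h2 : 0 ≤ 4 * φ * π.q := by positivity
      linarith
    · simpa using hout x hx
  have hsum := Finset.sum_le_sum hpt
  rw [Finset.sum_add_distrib, Finset.sum_const, nsmul_eq_mul, ← Finset.sum_filter,
    Finset.sum_const, nsmul_eq_mul] at hsum
  have hf : ((B'.filter fun x => x ∈ Y).card : ℝ) ≤ Y.card := by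
    exact_mod_cast Finset.card_le_card fun x hx => (Finset.mem_filter.1 hx).2
  have hB : (B'.card : ℝ) ≤ a.C * π.q := by exact_mod_cast hc
  have h5 : (B'.card : ℝ) * (4 * φ * π.q) ≤ a.C * π.q * (4 * φ * π.q) :=
    mul_le_mul_of_nonneg_right hB (by positivity)
  have h6 : a.C * π.q * (4 * φ * π.q) = a.η (j + 1) / 2 * (π.q : ℝ) ^ 2 := by
    rw [hφ]; field_simp; ring
  have h7 := BIG.lev_le π G B' j
  have h8 : ((B'.filter fun x => x ∈ Y).card : ℝ) * (2 * π.q) ≤ Y.card * (2 * π.q) :=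
    mul_le_mul_of_nonneg_right hf (by positivity)
  have h9 : a.η (j + 1) / 4 * π.q * (2 * π.q) ≤ Y.card * (2 * π.q) := by nlinarith
  exact le_of_mul_le_mul_right h9 (by positivity)

end Pool.Agent.Lib.AL
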