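import Pool.Agent.Lib.AL.Blue

/-! Binomial law of the trace of a random subset. -/

namespace Pool.Agent.Lib.AL

open Finset

namespace BIN

variable {P : Type} [Fintype P] [DecidableEq P]

omit [Fintype P] in
lemma prod_eq {S U : Finset P} (hU : U ⊆ S) (W : Finset P) :
    (∏ x ∈ S, if x ∈ W then (if x ∈ U then (1 : ℝ) else 0) else if x ∈ U then 0 else 1)
      = if W ∩ S = U then 1 else 0 := by
  by_cases h : W ∩ S = U
  · rw [if_pos h]
    refine Finset.prod_eq_one fun x hx => ?_
    subst h
    by_cases hW : x ∈ W <;> simp [hW, hx]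
  · rw [if_neg h]
    by_contra hc
    apply h
    ext x
    constructor
    · intro hx
      by_contra hxU
      exact hc (Finset.prod_eq_zero (Finset.mem_inter.1 hx).2 (by
        simp [(Finset.mem_inter.1 hx).1, hxU]))
    · intro hx
      refine Finset.mem_inter.2 ⟨?_, hU hx⟩
      by_contra hW
      exact hc (Finset.prod_eq_zero (hU hx) (by simp [hW, hx]))

lemma Ex_trace (τ : ℝ) {S U : Finset P} (hU : U ⊆ S) :
    Ex τ (fun W => if W ∩ S = U then 1 else 0) = τ ^ U.card * (1 - τ) ^ (S.card - U.card) := by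
  simp only [← prod_eq hU]
  rw [Ex_prod τ S (fun x => {x})
    (fun x W => if x ∈ W then (if x ∈ U then (1 : ℝ) else 0) else if x ∈ U then 0 else 1)]
  · simp only [Ex_mem]
    rw [← Finset.prod_sdiff hU, ← Finset.card_sdiff_of_subset hU, mul_comm,
      Finset.prod_congr rfl (g := fun _ => τ) fun x hx => by simp [hx],
      Finset.prod_congr rfl (s₁ := S \ U) (g := fun _ => 1 - τ) fun x hx => by
        simp [(Finset.mem_sdiff.1 hx).2], Finset.prod_const, Finset.prod_const]
  · intro x _ W; simp
  · intro x _ y _ h; simpa using h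

end BIN

theorem st_BIN : St_BIN := by
  intro P _ _ τ S k
  have h : ∀ W : Finset P, (if (W ∩ S).card = k then (1 : ℝ) else 0)
      = ∑ U ∈ S.powersetCard k, if W ∩ S = U then 1 else 0 := by
    intro W
    rw [Finset.sum_ite_eq]
    simp [Finset.mem_powersetCard]
  simp only [h]
  rw [Ex_sum, Finset.sum_congr rfl (g := fun _ => τ ^ k * (1 - τ) ^ (S.card - k)) fun U hU => by
    rw [BIN.Ex_trace τ (Finset.mem_powersetCard.1 hU).1, (Finset.mem_powersetCard.1 hU).2]]
  rw [Finset.sum_const, Finset.card_powersetCard, nsmul_eq_mul, mul_assoc]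

end Pool.Agent.Lib.AL
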