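import Pool.Agent.Lib.AL.Blue

/-! A projective plane of Mathlib gives a plane in counting form. -/

namespace Pool.Agent.Lib.AL

open Finset Configuration

theorem st_BRIDGE : St_BRIDGE := by
  intro P L _ _ _ _ _ _
  classical
  have hpt : ∀ l : L, (univ.filter fun x : P => x ∈ l).card = ProjectivePlane.order P L + 1 := by
    intro l
    rw [← ProjectivePlane.pointCount_eq P l, pointCount, Nat.card_eq_fintype_card,
      Fintype.card_subtype]
  have hln : ∀ x : P, (univ.filter fun l : L => x ∈ l).card = ProjectivePlane.order P L + 1 := by
    intro x
    rw [← ProjectivePlane.lineCount_eq L x, lineCount, Nat.card_eq_fintype_card,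
      Fintype.card_subtype]
  refine ⟨{ pts := fun l => univ.filter fun x => x ∈ l
            q := ProjectivePlane.order P L
            two_le := ProjectivePlane.one_lt_order P L
            card_pts := hpt
            card_thru := fun x => ?_
            join := fun x y hxy => ?_
            meet := fun l l' h => ?_
            cardP := ProjectivePlane.card_points P L
            cardL := ProjectivePlane.card_lines P L }, rfl, fun l x => by simp⟩
  · rw [← hln x]
    congr 1
    ext l
    simp
  · obtain ⟨l, hl, hu⟩ := HasLines.existsUnique_line P L x y hxy
    rw [Finset.card_eq_one]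
    refine ⟨l, ?_⟩
    ext l'
    simp only [Finset.mem_filter, Finset.mem_univ, true_and, Finset.mem_singleton]
    exact ⟨fun h => hu l' h, fun h => h ▸ hl⟩
  · obtain ⟨x, hx, hu⟩ := HasPoints.existsUnique_point P L l l' h
    rw [Finset.card_eq_one]
    refine ⟨x, ?_⟩
    ext y
    simp only [Finset.mem_inter, Finset.mem_filter, Finset.mem_univ, true_and,
      Finset.mem_singleton]
    exact ⟨fun h => hu y h, fun h => h ▸ hx⟩

end Pool.Agent.Lib.AL
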