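import Pool.Agent.Lib.AL.Blue

/-! Counting of samples and models. -/

namespace Pool.Agent.Lib.AL

open Finset

namespace CARDB

lemma sum_choose_le (N n : ℕ) : ∑ i ∈ range (n + 1), N.choose i ≤ (N + 1) ^ n := by
  rw [add_pow]
  refine sum_le_sum fun i hi => ?_
  have h1 : 1 ≤ n.choose i := Nat.choose_pos (Nat.lt_succ_iff.1 (mem_range.1 hi))
  rw [one_pow, mul_one, Nat.cast_id]
  exact (Nat.choose_le_pow N i).trans (Nat.le_mul_of_pos_right _ h1)

lemma card_small (P : Type) [Fintype P] [DecidableEq P] (s : ℝ) :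
    (small P s).card ≤ (Fintype.card P + 1) ^ ⌊s⌋₊ := by
  have h : small P s ⊆ (range (⌊s⌋₊ + 1)).biUnion fun i => powersetCard i univ := fun F hF =>
    mem_biUnion.2 ⟨F.card, mem_range.2 (Nat.lt_succ_iff.2 (Nat.le_floor (mem_small.1 hF))),
      mem_powersetCard.2 ⟨subset_univ _, rfl⟩⟩
  refine (card_le_card h).trans (card_biUnion_le.trans ?_)
  simp only [card_powersetCard, card_univ]
  exact sum_choose_le _ _

end CARDB

theorem st_CARD : St_CARD := by
  intro P L _ _ _ _ π C K t τ T s
  classical
  refine ⟨CARDB.card_small P s, ?_⟩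
  induction t with
  | zero => simp [models]
  | succ t ih =>
    rw [models]
    refine (card_union_le _ _).trans ((Nat.add_le_add_left card_image_le _).trans ?_)
    rw [card_product, card_product, card_range, pow_succ, mul_add, mul_one]
    exact Nat.add_le_add ih (Nat.mul_le_mul ih (Nat.mul_le_mul_left _ (CARDB.card_small P s)))

end Pool.Agent.Lib.AL
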