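import Pool.Agent.Lib.AL.Blue

/-! Two binomial coefficient facts. -/

namespace Pool.Agent.Lib.AL

open Finset

namespace CH

lemma ratio {n D : ℕ} (h : 3 * D ≤ n) : n.choose D ≤ 3 ^ D * (n - D).choose D := by
  refine Nat.le_of_mul_le_mul_left ?_ (Nat.factorial_pos D)
  rw [mul_left_comm, ← Nat.descFactorial_eq_factorial_mul_choose,
    ← Nat.descFactorial_eq_factorial_mul_choose, Nat.descFactorial_eq_prod_range,
    Nat.descFactorial_eq_prod_range]
  have e : 3 ^ D * ∏ i ∈ range D, (n - D - i) = ∏ i ∈ range D, 3 * (n - D - i) := by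
    rw [Finset.prod_mul_distrib, Finset.prod_const, Finset.card_range]
  rw [e]
  refine Finset.prod_le_prod' fun i hi => ?_
  have := Finset.mem_range.1 hi
  omega

lemma sq_le (n D : ℕ) : n.choose D ^ 2 ≤ 8 ^ D * n.choose D + 12 ^ D * n.choose (2 * D) := by
  rw [sq]
  rcases le_total n (3 * D) with h | h
  · refine le_trans (Nat.mul_le_mul_right _ ?_) (Nat.le_add_right _ _)
    calc n.choose D ≤ 2 ^ n := Nat.choose_le_two_pow n D
      _ ≤ 2 ^ (3 * D) := Nat.pow_le_pow_right (by norm_num) h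
      _ = 8 ^ D := by rw [pow_mul]; norm_num
  · refine le_trans ?_ (Nat.le_add_left _ _)
    have h1 := Nat.choose_mul (n := n) (k := 2 * D) (s := D) (by omega)
    have h2 : 2 * D - D = D := by omega
    rw [h2] at h1
    have h3 : (2 * D).choose D ≤ 4 ^ D := by
      calc (2 * D).choose D ≤ 2 ^ (2 * D) := Nat.choose_le_two_pow _ _
        _ = 4 ^ D := by rw [pow_mul]; norm_num
    calc n.choose D * n.choose D ≤ n.choose D * (3 ^ D * (n - D).choose D) :=
          Nat.mul_le_mul_left _ (ratio h)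
      _ = 3 ^ D * (n.choose (2 * D) * (2 * D).choose D) := by rw [h1]; ring
      _ ≤ 3 ^ D * (n.choose (2 * D) * 4 ^ D) :=
          Nat.mul_le_mul_left _ (Nat.mul_le_mul_left _ h3)
      _ = 12 ^ D * n.choose (2 * D) := by
          rw [show (12 : ℕ) = 3 * 4 by norm_num, mul_pow]; ring

lemma alt (n j r : ℕ) :
    ∑ k ∈ Icc j (j + 2 * r), (-1 : ℝ) ^ (k - j) * (k.choose j : ℝ) * (n.choose k : ℝ)
      = if n = j then 1 else (n.choose j : ℝ) * ((n - j - 1).choose (2 * r) : ℝ) := by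
  have h1 : ∑ k ∈ Icc j (j + 2 * r), (-1 : ℝ) ^ (k - j) * (k.choose j : ℝ) * (n.choose k : ℝ)
      = (n.choose j : ℝ) * ∑ i ∈ range (2 * r + 1), (-1 : ℝ) ^ i * ((n - j).choose i : ℝ) := by
    rw [← Finset.Ico_add_one_right_eq_Icc, Finset.sum_Ico_eq_sum_range, Finset.mul_sum,
      show j + 2 * r + 1 - j = 2 * r + 1 by omega]
    refine Finset.sum_congr rfl fun i _ => ?_
    have h2 := Nat.choose_mul (n := n) (k := j + i) (s := j) (by omega)
    rw [Nat.add_sub_cancel_left] at h2 ⊢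
    have h3 : (n.choose (j + i) : ℝ) * ((j + i).choose j : ℝ)
        = (n.choose j : ℝ) * ((n - j).choose i : ℝ) := by exact_mod_cast h2
    linear_combination (-1 : ℝ) ^ i * h3
  rw [h1]
  rcases lt_trichotomy n j with h | h | h
  · rw [if_neg h.ne, Nat.choose_eq_zero_of_lt h]
    simp
  · subst h
    rw [if_pos rfl, Nat.choose_self, Nat.sub_self, Finset.sum_range_succ']
    simp
  · rw [if_neg h.ne']
    obtain ⟨m, hm⟩ : ∃ m, n - j = m + 1 := ⟨n - j - 1, by omega⟩
    have h4 := Int.alternating_sum_range_choose_eq_choose (n := m) (m := 2 * r)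
    have h5 : ∑ i ∈ range (2 * r + 1), (-1 : ℝ) ^ i * ((m + 1).choose i : ℝ)
        = (-1) ^ (2 * r) * (m.choose (2 * r) : ℝ) := by exact_mod_cast h4
    rw [hm, h5, Nat.add_sub_cancel, pow_mul]
    simp

end CH

theorem st_CH : St_CH := ⟨CH.sq_le, CH.alt⟩

end Pool.Agent.Lib.AL
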