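import Pool.Agent.Lib.AL.Blue

/-! The core theorem from the steps. -/

namespace Pool.Agent.Lib.AL

open Finset

namespace CORE

variable {P L : Type} [Fintype P] [Fintype L] [DecidableEq P] [DecidableEq L]

/-- The family of all cores. -/
noncomputable def fam (π : Pl P L) (a : Par) (τ : ℝ) (tm : ℕ) : Finset (Finset P) :=
  (models π a.C a.K τ a.T (2 * τ * (a.C * π.q)) tm ×ˢ
      (range a.J ×ˢ small P (2 * τ * (a.C * π.q)))).image
    fun u => core π τ (good π a.C u.1) u.2.1 (u.2.1 + 2 * a.r) (a.η (u.2.1 + 1) / (8 * a.C)) u.2.2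

lemma card_fam (hCARD : St_CARD) (π : Pl P L) (a : Par) (τ : ℝ) (tm : ℕ) :
    (fam π a τ tm).card ≤
      (1 + a.K * (π.q ^ 2 + π.q + 1 + 1) ^ ⌊2 * τ * (a.C * π.q)⌋₊) ^ tm
        * (a.J * (π.q ^ 2 + π.q + 1 + 1) ^ ⌊2 * τ * (a.C * π.q)⌋₊) := by
  obtain ⟨h1, h2⟩ := hCARD P L π a.C a.K tm τ a.T (2 * τ * (a.C * π.q))
  rw [π.cardP] at h1 h2
  refine Finset.card_image_le.trans ?_
  rw [Finset.card_product, Finset.card_product, Finset.card_range]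
  exact Nat.mul_le_mul h2 (Nat.mul_le_mul_left _ h1)

lemma main (hSAMP : St_SAMP) (hPOLY : St_POLY) (hGOOD : St_GOOD) (hITER : St_ITER)
    (hMOM : St_MOM) (hLEV : St_LEV) (hOUT : St_OUT) (hBIG : St_BIG)
    (π : Pl P L) (a : Par) (τ e : ℝ) (tm : ℕ) (hQ : Qok a π.q τ e tm) (B : Finset P)
    (hB : Blocking π B) (hc : B.card ≤ a.C * π.q) :
    ∃ Y ∈ fam π a τ tm, a.η 0 / 4 * π.q ≤ (Y.card : ℝ) ∧ ((Y \ B).card : ℝ) ≤ a.κ * Y.card := by
  have hq := q_pos π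
  have hC : (0 : ℝ) < a.C := by exact_mod_cast a.C_pos
  obtain ⟨p, hp, hpos, hsum, hreg⟩ := hITER P L π a.C a.K tm τ a.T (2 * τ * (a.C * π.q)) a.θ B
    a.C_pos hQ.τ_pos a.T_pos a.θ_pos hc hQ.rounds
  obtain ⟨B', hB'B, hdrop, hmom⟩ := hMOM P L π a τ e tm B p hQ hc hpos hsum hreg
  have hG := hGOOD P L π a.C p a.C_pos (fun x => (hpos x).le) hsum
  obtain ⟨j, hj, hlo, hhi⟩ := hLEV P L π a (good π a.C p) B B' hB hc hB'B hdrop hG
  have hc' : B'.card ≤ a.C * π.q := (Finset.card_le_card hB'B).trans hc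
  have h2τ : 1 ≤ 2 / τ := by
    rw [le_div_iff₀ hQ.τ_pos]; linarith [hQ.τ_lt]
  have hV : ∀ n, |fj τ j (j + 2 * a.r) n| ≤ (2 / τ) ^ a.K := by
    intro n
    refine ((hPOLY P τ j a.r hQ.τ_pos hQ.τ_lt).1 n).trans (pow_le_pow_right₀ h2τ ?_)
    have := a.K_eq
    omega
  obtain ⟨F, hF, hacc⟩ := hSAMP P L π τ ((2 / τ) ^ a.K) e (a.C * π.q) (good π a.C p)
    (fj τ j (j + 2 * a.r)) B' hQ.τ_pos hQ.τ_lt.le (by positivity) (by positivity)
    (by exact_mod_cast hc') hV hQ.e_nonneg hQ.e_le hQ.conc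
  have hacc' : ∀ x, |stat π (good π a.C p) (fj τ j (j + 2 * a.r)) F x
      - mean π τ (good π a.C p) (fj τ j (j + 2 * a.r)) B' x| ≤ a.ε * π.q :=
    fun x => (hacc x).trans hQ.acc
  have h1 := hOUT P L π a τ (good π a.C p) B' F j hQ.τ_pos hQ.τ_lt hj hmom hlo hacc'
  have h2 := hBIG P L π a τ (good π a.C p) B' F j hQ.τ_pos hQ.τ_lt hj hQ.half hc' hhi hacc'
  refine ⟨core π τ (good π a.C p) j (j + 2 * a.r) (a.η (j + 1) / (8 * a.C)) F, ?_, ?_, ?_⟩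
  · refine Finset.mem_image.2 ⟨(p, j, F), ?_, rfl⟩
    simp only [Finset.mem_product, Finset.mem_range, mem_small]
    exact ⟨hp, hj, hF⟩
  · refine le_trans ?_ h2
    have := a.η_zero_le (j + 1) hj
    gcongr
  · have h3 : ((core π τ (good π a.C p) j (j + 2 * a.r) (a.η (j + 1) / (8 * a.C)) F \ B).card : ℝ)
        ≤ ((core π τ (good π a.C p) j (j + 2 * a.r) (a.η (j + 1) / (8 * a.C)) F \ B').card : ℝ) := by
      exact_mod_cast Finset.card_le_card (Finset.sdiff_subset_sdiff (Finset.Subset.refl _) hB'B)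
    exact h3.trans (h1.trans (mul_le_mul_of_nonneg_left h2 a.κ_pos.le))

end CORE

theorem st_CORE (hSAMP : St_SAMP) (hPOLY : St_POLY) (hGOOD : St_GOOD) (hITER : St_ITER)
    (hCARD : St_CARD) (hMOM : St_MOM) (hLEV : St_LEV) (hOUT : St_OUT) (hBIG : St_BIG)
    (hPAR : St_PAR) (hASY : St_ASY) : St_CORE := by
  intro C κ hκ
  obtain ⟨a, haC, haκ⟩ := hPAR (C + 1) (min κ 1) (by omega) (lt_min hκ one_pos) (min_le_right _ _)
  refine ⟨a.η 0 / 4, by have := a.η_pos 0; positivity, fun ζ hζ => ?_⟩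
  obtain ⟨q₀, hq₀⟩ := hASY a ζ hζ
  refine ⟨q₀, fun P L _ _ _ _ π hq => ?_⟩
  obtain ⟨τ, e, tm, hQ, hcount⟩ := hq₀ π.q hq
  refine ⟨CORE.fam π a τ tm, le_trans ?_ hcount, fun B hB hc => ?_⟩
  · exact_mod_cast CORE.card_fam hCARD π a τ tm
  · have hc' : B.card ≤ a.C * π.q := by
      rw [haC]; exact hc.trans (Nat.mul_le_mul_right _ (Nat.le_succ C))
    obtain ⟨Y, hY, h1, h2⟩ := CORE.main hSAMP hPOLY hGOOD hITER hMOM hLEV hOUT hBIG π a τ e tm hQ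
      B hB hc'
    refine ⟨Y, hY, h1, h2.trans ?_⟩
    rw [haκ]
    exact mul_le_mul_of_nonneg_right (min_le_left _ _) (Nat.cast_nonneg _)

end Pool.Agent.Lib.AL
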