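import Pool.Agent.Lib.AL.Blue

/-! Planes of arbitrarily large order exist. -/

namespace Pool.Agent.Lib.AL

open Finset

theorem st_EXIST (hB : St_BRIDGE) : St_EXIST := by
  intro q₀
  classical
  obtain ⟨p, hp, hpr⟩ := Nat.exists_infinite_primes (q₀ ^ 2 + q₀ + 1)
  have : Fact p.Prime := ⟨hpr⟩
  have : NeZero p := ⟨hpr.ne_zero⟩
  let K := ZMod p
  let X := Projectivization K (Fin 3 → K)
  have : Finite X := by
    unfold X Projectivization
    infer_instance
  let : Fintype X := Fintype.ofFinite X
  obtain ⟨π, -, -⟩ := hB X X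
  refine ⟨X, X, inferInstance, inferInstance, inferInstance, inferInstance, π, ?_⟩
  have hne : ∀ a : K, (![1, a, 0] : Fin 3 → K) ≠ 0 := fun a h => by
    have := congrFun h 0
    simp at this
  have hinj : Function.Injective fun a : K => (Projectivization.mk K ![1, a, 0] (hne a) : X) := by
    intro a b h
    obtain ⟨u, hu⟩ := (Projectivization.mk_eq_mk_iff' K _ _ _ _).1 h
    have h0 := congrFun hu 0
    have h1 := congrFun hu 1
    simp at h0 h1
    rw [h0, one_mul] at h1
    exact h1.symm
  have hc := Fintype.card_le_of_injective _ hinj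
  rw [π.cardP, ZMod.card] at hc
  by_contra hlt
  push Not at hlt
  have : π.q ^ 2 ≤ q₀ ^ 2 := Nat.pow_le_pow_left hlt.le 2
  omega

end Pool.Agent.Lib.AL
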