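import Pool.Agent.Lib.AL.Blue

/-! Most lines are good. -/

namespace Pool.Agent.Lib.AL

open Finset

theorem st_GOOD : St_GOOD := by
  intro P L _ _ _ _ π C p hC hp hs
  have h1 := sum_thru π univ univ fun x _ => p x
  have h2 : ∀ x, ∑ _l ∈ thru π univ x, p x = (π.q + 1) * p x := fun x => by
    rw [sum_const, nsmul_eq_mul, thru, π.card_thru]
    push_cast
    ring
  simp only [h2, univ_inter] at h1
  rw [← mul_sum, hs] at h1
  have h3 : ∑ _l ∈ (good π C p)ᶜ, (4 * C : ℝ) ≤ ∑ l, ∑ x ∈ π.pts l, p x :=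
    (sum_le_sum fun l hl => (not_le.1 fun h => mem_compl.1 hl (mem_good.2 h)).le).trans
      (sum_le_sum_of_subset_of_nonneg (subset_univ _) fun l _ _ => sum_nonneg fun x _ => hp x)
  rw [← h1, sum_const, nsmul_eq_mul] at h3
  have h4 : (((good π C p).card : ℝ)) + ((good π C p)ᶜ.card : ℝ) = Fintype.card L := by
    exact_mod_cast card_add_card_compl (good π C p)
  have hC' : (0 : ℝ) < C := by exact_mod_cast hC
  have h5 : 4 * ((good π C p)ᶜ.card : ℝ) ≤ (π.q + 1) * π.q :=
    le_of_mul_le_mul_left (a := (C : ℝ)) (by linarith) hC'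
  have h6 := cardL_real π
  have h7 : (3 : ℝ) * Fintype.card L ≤ 4 * (good π C p).card := by nlinarith
  exact_mod_cast h7

end Pool.Agent.Lib.AL
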