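import Pool.Agent.Lib.AL.Blue

/-! Hoeffding bound for functions of pairwise disjoint traces. -/

namespace Pool.Agent.Lib.AL

open Finset

namespace HOEF

variable {P ι : Type} [Fintype P] [DecidableEq P]

theorem mgf {τ θ : ℝ} (h0 : 0 ≤ τ) (h1 : τ ≤ 1) (hθ : 0 ≤ θ) (hθ' : θ ≤ 1 / 2)
    {Z : Finset P → ℝ} (hZ : ∀ W, |Z W| ≤ 2) (hE : Ex τ Z = 0) :
    Ex τ (fun W => Real.exp (θ * Z W)) ≤ Real.exp (4 * θ ^ 2) := by
  have h2 : ∀ W, Real.exp (θ * Z W) ≤ (1 + 4 * θ ^ 2) + θ * Z W := by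
    intro W
    have h3 : |θ * Z W| ≤ 2 * θ := by
      rw [abs_mul, abs_of_nonneg hθ]
      nlinarith [hZ W]
    have h4 := Real.abs_exp_sub_one_sub_id_le (x := θ * Z W) (by linarith)
    have h5 : (θ * Z W) ^ 2 ≤ (2 * θ) ^ 2 := by
      rw [← sq_abs]
      exact pow_le_pow_left₀ (abs_nonneg _) h3 2
    have h6 := (abs_le.1 h4).2
    nlinarith
  refine (Ex_mono h0 h1 h2).trans ?_
  rw [Ex_add, Ex_const, Ex_const_mul, hE]
  have := Real.add_one_le_exp (4 * θ ^ 2)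
  linarith

theorem side {τ e n : ℝ} (h0 : 0 ≤ τ) (h1 : τ ≤ 1) (hn : 0 < n) {s : Finset ι}
    (hs : (s.card : ℝ) ≤ n) (he : 0 ≤ e) (he' : e ≤ 4 * n) (A : ι → Finset P)
    (Z : ι → Finset P → ℝ) (hD : ∀ i ∈ s, Dep (A i) (Z i))
    (hd : ∀ i ∈ s, ∀ i' ∈ s, i ≠ i' → Disjoint (A i) (A i'))
    (hZ : ∀ i ∈ s, ∀ W, |Z i W| ≤ 2) (hE : ∀ i ∈ s, Ex τ (Z i) = 0) :
    Ex τ (fun W => Real.exp (e / (8 * n) * (∑ i ∈ s, Z i W - e))) ≤
      Real.exp (-(e ^ 2 / (16 * n))) := by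
  set θ := e / (8 * n) with hθ
  have hθ0 : 0 ≤ θ := by positivity
  have hθ1 : θ ≤ 1 / 2 := by
    rw [hθ, div_le_iff₀ (by positivity)]
    linarith
  have e1 : (fun W => Real.exp (θ * (∑ i ∈ s, Z i W - e))) =
      fun W => Real.exp (-(θ * e)) * ∏ i ∈ s, Real.exp (θ * Z i W) := by
    funext W
    rw [← Real.exp_sum, ← Real.exp_add, ← Finset.mul_sum]
    congr 1
    ring
  rw [e1, Ex_const_mul, Ex_prod τ s A (fun i W => Real.exp (θ * Z i W))
    (fun i hi W => by beta_reduce; rw [← hD i hi W]) hd]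
  have h2 : ∏ i ∈ s, Ex τ (fun W => Real.exp (θ * Z i W)) ≤ ∏ _i ∈ s, Real.exp (4 * θ ^ 2) :=
    Finset.prod_le_prod (fun i _ => Ex_nonneg h0 h1 fun W => (Real.exp_pos _).le)
      fun i hi => mgf h0 h1 hθ0 hθ1 (hZ i hi) (hE i hi)
  rw [Finset.prod_const, ← Real.exp_nat_mul] at h2
  refine (mul_le_mul_of_nonneg_left h2 (Real.exp_pos _).le).trans ?_
  rw [← Real.exp_add, Real.exp_le_exp]
  have h3 : (s.card : ℝ) * (4 * θ ^ 2) ≤ n * (4 * θ ^ 2) :=
    mul_le_mul_of_nonneg_right hs (by positivity)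
  have h4 : -(θ * e) + n * (4 * θ ^ 2) = -(e ^ 2 / (16 * n)) := by
    rw [hθ]
    field_simp
    ring
  linarith

end HOEF

theorem st_HOEF : St_HOEF := by
  intro P ι _ _ τ V e n s A f h0 h1 hV hn hs he he' hD hd hf
  have hZ : ∀ i ∈ s, ∀ W, |(f i W - Ex τ (f i)) / V| ≤ 2 := by
    intro i hi W
    rw [abs_div, abs_of_pos hV, div_le_iff₀ hV]
    have h2 := abs_sub (f i W) (Ex τ (f i))
    have h3 := abs_Ex_le h0 h1 (hf i hi)
    have h4 := hf i hi W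
    linarith
  have hE : ∀ (c : ℝ), ∀ i ∈ s, Ex τ (fun W => c * (f i W - Ex τ (f i))) = 0 := by
    intro c i _
    rw [Ex_const_mul, Ex_sub, Ex_const, sub_self, mul_zero]
  have k1 := HOEF.side h0 h1 hn hs he he' A (fun i W => V⁻¹ * (f i W - Ex τ (f i)))
    (fun i hi W => by beta_reduce; rw [← hD i hi W]) hd
    (fun i hi W => by rw [← div_eq_inv_mul]; exact hZ i hi W) (hE _)
  have k2 := HOEF.side h0 h1 hn hs he he' A (fun i W => -V⁻¹ * (f i W - Ex τ (f i)))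
    (fun i hi W => by beta_reduce; rw [← hD i hi W]) hd
    (fun i hi W => by rw [neg_mul, abs_neg, ← div_eq_inv_mul]; exact hZ i hi W) (hE _)
  have hθ : 0 ≤ e / (8 * n) := by positivity
  refine (Ex_mono h0 h1 (g := fun W =>
    Real.exp (e / (8 * n) * (∑ i ∈ s, V⁻¹ * (f i W - Ex τ (f i)) - e)) +
    Real.exp (e / (8 * n) * (∑ i ∈ s, -V⁻¹ * (f i W - Ex τ (f i)) - e))) fun W => ?_).trans ?_
  · rw [← Finset.mul_sum, ← Finset.mul_sum, Finset.sum_sub_distrib]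
    set D := ∑ i ∈ s, f i W - ∑ i ∈ s, Ex τ (f i)
    have p1 := Real.exp_pos (e / (8 * n) * (V⁻¹ * D - e))
    have p2 := Real.exp_pos (e / (8 * n) * (-V⁻¹ * D - e))
    split_ifs with h
    · rcases lt_abs.1 h with h | h
      · have h2 : 0 ≤ V⁻¹ * D - e := by
          rw [sub_nonneg, ← div_eq_inv_mul, le_div_iff₀ hV]
          linarith
        have h3 := Real.one_le_exp (mul_nonneg hθ h2)
        linarith
      · have h2 : 0 ≤ -V⁻¹ * D - e := by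
          rw [sub_nonneg, neg_mul, ← mul_neg, ← div_eq_inv_mul, le_div_iff₀ hV]
          linarith
        have h3 := Real.one_le_exp (mul_nonneg hθ h2)
        linarith
    · linarith
  · rw [Ex_add]
    linarith

end Pool.Agent.Lib.AL
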