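import Pool.Agent.Lib.AL.Blue

/-! A regular model is reached. -/

namespace Pool.Agent.Lib.AL

open Finset

namespace ITERB

variable {P L : Type} [Fintype P] [Fintype L] [DecidableEq P] [DecidableEq L]

lemma hfun_nonneg (π : Pl P L) (C : ℕ) {τ T : ℝ} (hτ : 0 < τ) (hT : 0 < T) (p : P → ℝ) (k : ℕ)
    (F : Finset P) (x : P) : 0 ≤ hfun π C τ T p k F x := by
  refine le_min zero_le_one (div_nonneg (sum_nonneg fun l _ => ?_) (mul_pos hT (q_pos π)).le)
  unfold ind
  split_ifs
  · positivity
  · exact le_rfl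

end ITERB

theorem st_ITER (hM : St_MW) : St_ITER := by
  intro P L _ _ _ _ π C K tm τ T s θ B hC hτ hT hθ hB htm
  classical
  have hq := two_le_q π
  have hC' : (1 : ℝ) ≤ C := by exact_mod_cast hC
  have hm : (0 : ℝ) < C * π.q := by positivity
  have hB' : (B.card : ℝ) ≤ C * π.q := by exact_mod_cast hB
  have hN := cardP_real π
  have hN0 : (0 : ℝ) < Fintype.card P := by rw [hN]; positivity
  have hl : 0 ≤ Real.log (2 * π.q) := Real.log_nonneg (by linarith)
  have key : ∀ t : ℕ, ∃ p ∈ models π C K τ T s t, (∀ x, 0 < p x) ∧ ∑ x, p x = C * π.q ∧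
      (Reg π C K τ T s θ B p ∨ -(C * π.q * Real.log (2 * π.q)) + t * (θ * π.q / 2) ≤
        ∑ x ∈ B, Real.log (p x)) := by
    intro t
    induction t with
    | zero =>
      refine ⟨fun _ => (C * π.q : ℝ) / Fintype.card P, by simp [models],
        fun _ => div_pos hm hN0, ?_, Or.inr ?_⟩
      · rw [sum_const, card_univ, nsmul_eq_mul, mul_div_cancel₀ _ hN0.ne']
      · have h1 : (2 * π.q : ℝ)⁻¹ ≤ (C * π.q : ℝ) / Fintype.card P := by
          rw [le_div_iff₀ hN0, inv_mul_le_iff₀ (by positivity), hN]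
          nlinarith [mul_le_mul_of_nonneg_right hC' (sq_nonneg (π.q : ℝ))]
        have h2 := Real.log_le_log (by positivity) h1
        rw [Real.log_inv] at h2
        rw [sum_const, nsmul_eq_mul]
        have h3 := mul_le_mul_of_nonneg_left h2 (Nat.cast_nonneg (α := ℝ) B.card)
        have h4 := mul_le_mul_of_nonneg_right hB' hl
        simp only [Nat.cast_zero, zero_mul, add_zero]
        linarith
    | succ t ih =>
      obtain ⟨p, hp, h0, hs, h⟩ := ih
      by_cases hR : Reg π C K τ T s θ B p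
      · exact ⟨p, by rw [models]; exact mem_union_left _ hp, h0, hs, Or.inl hR⟩
      have h1 := h.resolve_left hR
      simp only [Reg, not_forall, not_le] at hR
      obtain ⟨k, hk, F, hF, hlt⟩ := hR
      obtain ⟨a1, a2, a3⟩ := hM P (C * π.q) (θ * π.q) p (hfun π C τ T p k F) B hm h0 hs hB'
        (ITERB.hfun_nonneg π C hτ hT p k F) fun x => min_le_left _ _
      refine ⟨_, ?_, a1, a2, Or.inr ?_⟩
      · rw [models]
        exact mem_union_right _ (mem_image.2 ⟨(p, k, F), mem_product.2
          ⟨hp, mem_product.2 ⟨mem_range.2 hk, mem_small.2 hF⟩⟩, rfl⟩)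
      · have := a3 hlt
        push_cast
        linarith
  obtain ⟨p, hp, h0, hs, h⟩ := key tm
  refine ⟨p, hp, h0, hs, h.resolve_right fun h1 => ?_⟩
  have h2 : ∑ x ∈ B, Real.log (p x) ≤ ∑ x, p x :=
    (sum_le_sum fun x _ => (Real.log_le_sub_one_of_pos (h0 x)).trans (by linarith)).trans
      (sum_le_sum_of_subset_of_nonneg (subset_univ _) fun x _ _ => (h0 x).le)
  linarith

end Pool.Agent.Lib.AL
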