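import Pool.Agent.Lib.AL.Blue

/-! Choice of the level: the first jump of the level counts. -/

namespace Pool.Agent.Lib.AL

open Finset

namespace LEV

variable {P L : Type} [Fintype P] [Fintype L] [DecidableEq P] [DecidableEq L]

/-- Incidences between a point set and a line set. -/
theorem inc_le (π : Pl P L) (G : Finset L) (S : Finset P) :
    ∑ l ∈ G, ((S ∩ π.pts l).card : ℝ) ≤ S.card * (π.q + 1) := by
  have h := sum_thru π G S (fun _ _ => (1 : ℝ))
  simp only [Finset.sum_const, nsmul_eq_mul, mul_one] at h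
  rw [← h]
  have h2 : ∑ x ∈ S, ((thru π G x).card : ℝ) ≤ ∑ _x ∈ S, ((π.q : ℝ) + 1) :=
    Finset.sum_le_sum fun x _ => by exact_mod_cast card_thru_le π G x
  rw [Finset.sum_const, nsmul_eq_mul] at h2
  exact h2

/-- Lines of `G` with at least `k` points of `S`. -/
theorem many_le (π : Pl P L) (G G' : Finset L) (S : Finset P) (k : ℕ) (hG : G' ⊆ G)
    (hk : ∀ l ∈ G', k ≤ (S ∩ π.pts l).card) :
    (k : ℝ) * G'.card ≤ S.card * (π.q + 1) := by
  have h1 : ∑ _l ∈ G', (k : ℝ) ≤ ∑ l ∈ G', ((S ∩ π.pts l).card : ℝ) :=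
    Finset.sum_le_sum fun l hl => by exact_mod_cast hk l hl
  have h2 := inc_le π G' S
  simp only [Finset.sum_const, nsmul_eq_mul] at h1
  have _ := hG
  linarith

theorem lev_zero (π : Pl P L) (G : Finset L) {B B' : Finset P} (hB : Blocking π B) :
    (lev π G B' 0 : ℝ) ≤ (B \ B').card * (π.q + 1) := by
  have h := many_le π G (G.filter fun l => (B' ∩ π.pts l).card = 0) (B \ B') 1
    (Finset.filter_subset _ _) (by
      intro l hl
      have h0 := Finset.card_eq_zero.1 (Finset.mem_filter.1 hl).2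
      obtain ⟨x, hx, hxl⟩ := hB l
      refine Finset.card_pos.2 ⟨x, Finset.mem_inter.2 ⟨Finset.mem_sdiff.2 ⟨hx, fun h => ?_⟩, hxl⟩⟩
      have : x ∈ B' ∩ π.pts l := Finset.mem_inter.2 ⟨h, hxl⟩
      rw [h0] at this
      exact Finset.notMem_empty x this)
  simpa [lev] using h

theorem card_split (π : Pl P L) (G : Finset L) (S : Finset P) (J : ℕ) :
    G.card ≤ ∑ j ∈ range (J + 1), lev π G S j
      + (G.filter fun l => J + 1 ≤ (S ∩ π.pts l).card).card := by
  have h1 : G ⊆ (range (J + 1)).biUnion (fun j => G.filter fun l => (S ∩ π.pts l).card = j)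
      ∪ G.filter fun l => J + 1 ≤ (S ∩ π.pts l).card := by
    intro l hl
    by_cases h : J + 1 ≤ (S ∩ π.pts l).card
    · exact Finset.mem_union_right _ (Finset.mem_filter.2 ⟨hl, h⟩)
    · refine Finset.mem_union_left _ (Finset.mem_biUnion.2 ⟨(S ∩ π.pts l).card, ?_, ?_⟩)
      · exact Finset.mem_range.2 (by omega)
      · exact Finset.mem_filter.2 ⟨hl, rfl⟩
  refine (Finset.card_le_card h1).trans ((Finset.card_union_le _ _).trans ?_)
  exact Nat.add_le_add_right Finset.card_biUnion_le _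

end LEV

theorem st_LEV : St_LEV := by
  intro P L _ _ _ _ π a G B B' hB hc hs hv hG
  by_contra hn
  push Not at hn
  have hq := two_le_q π
  have hq0 := q_pos π
  have hvt : 0 ≤ a.vt := by
    by_contra h
    push Not at h
    have : a.vt * π.q < 0 := mul_neg_of_neg_of_pos h hq0
    have h2 : (0 : ℝ) ≤ (B \ B').card := Nat.cast_nonneg _
    linarith
  have h0 : (lev π G B' 0 : ℝ) ≤ a.η 0 * (π.q : ℝ) ^ 2 := by
    have h1 := LEV.lev_zero π G (B' := B') hB
    have h2 : ((B \ B').card : ℝ) * (π.q + 1) ≤ a.vt * π.q * (2 * π.q) :=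
      mul_le_mul hv (by linarith) (by linarith) (by positivity)
    have h3 : 2 * a.vt * (π.q : ℝ) ^ 2 ≤ a.η 0 * (π.q : ℝ) ^ 2 :=
      mul_le_mul_of_nonneg_right a.vt_le (by positivity)
    nlinarith
  have hall : ∀ j, j ≤ a.J → (lev π G B' j : ℝ) ≤ a.η j * (π.q : ℝ) ^ 2 := by
    intro j
    induction j with
    | zero => exact fun _ => h0
    | succ j ih => exact fun hj => hn j (by omega) (ih (by omega))
  have hJ : (0 : ℝ) < (a.J : ℝ) + 1 := by positivity
  have hsum : ∑ j ∈ range (a.J + 1), (lev π G B' j : ℝ) ≤ (π.q : ℝ) ^ 2 / 4 := by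
    have h1 : ∑ j ∈ range (a.J + 1), (lev π G B' j : ℝ)
        ≤ ∑ _j ∈ range (a.J + 1), 1 / (4 * ((a.J : ℝ) + 1)) * (π.q : ℝ) ^ 2 := by
      refine Finset.sum_le_sum fun j hj => ?_
      have hj' : j ≤ a.J := by have := Finset.mem_range.1 hj; omega
      exact (hall j hj').trans (mul_le_mul_of_nonneg_right (a.η_le j hj') (by positivity))
    rw [Finset.sum_const, Finset.card_range, nsmul_eq_mul] at h1
    refine h1.trans (le_of_eq ?_)
    push_cast
    field_simp
  have hmany := LEV.many_le π G (G.filter fun l => a.J + 1 ≤ (B' ∩ π.pts l).card) B' (a.J + 1)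
    (Finset.filter_subset _ _) fun l hl => (Finset.mem_filter.1 hl).2
  have hsp : (G.card : ℝ) ≤ ∑ j ∈ range (a.J + 1), (lev π G B' j : ℝ)
      + ((G.filter fun l => a.J + 1 ≤ (B' ∩ π.pts l).card).card : ℝ) := by
    exact_mod_cast LEV.card_split π G B' a.J
  have hB' : (B'.card : ℝ) ≤ a.C * π.q := by
    exact_mod_cast (Finset.card_le_card hs).trans hc
  have hGr : 3 * ((π.q : ℝ) ^ 2 + π.q + 1) ≤ 4 * G.card := by
    rw [← cardL_real π]; exact_mod_cast hG
  have hC : (1 : ℝ) ≤ a.C := by exact_mod_cast a.C_pos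
  have hJe : ((a.J + 1 : ℕ) : ℝ) = 4 * a.C + 1 := by rw [a.J_eq]; push_cast; ring
  rw [hJe] at hmany
  set m : ℝ := ((G.filter fun l => a.J + 1 ≤ (B' ∩ π.pts l).card).card : ℝ) with hm
  have hm0 : 0 ≤ m := Nat.cast_nonneg _
  have h5 : (B'.card : ℝ) * (π.q + 1) ≤ a.C * π.q * (π.q + 1) :=
    mul_le_mul_of_nonneg_right hB' (by linarith)
  have h6 : (a.C : ℝ) * (4 * m) ≤ a.C * (π.q * (π.q + 1)) := by nlinarith
  have h7 : 4 * m ≤ π.q * (π.q + 1) := le_of_mul_le_mul_left h6 (by linarith)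
  nlinarith

end Pool.Agent.Lib.AL
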