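import Pool.Agent.Lib.AL.Blue

/-! Mixing lemma of the plane. -/

namespace Pool.Agent.Lib.AL

open Finset

namespace MIX

variable {P L : Type} [Fintype P] [Fintype L] [DecidableEq P] [DecidableEq L]

lemma first (π : Pl P L) (G : Finset L) (g : L → ℝ) :
    ∑ x, ∑ l ∈ thru π G x, g l = (π.q + 1) * ∑ l ∈ G, g l := by
  rw [sum_thru π G univ fun _ l => g l, mul_sum]
  refine sum_congr rfl fun l _ => ?_
  rw [univ_inter, sum_const, π.card_pts, nsmul_eq_mul]
  push_cast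
  ring

lemma second (π : Pl P L) (G : Finset L) (g : L → ℝ) :
    ∑ x, (∑ l ∈ thru π G x, g l) ^ 2 = π.q * ∑ l ∈ G, g l ^ 2 + (∑ l ∈ G, g l) ^ 2 := by
  have h1 : ∀ x, (∑ l ∈ thru π G x, g l) ^ 2
      = ∑ l ∈ thru π G x, g l * ∑ l' ∈ thru π G x, g l' := fun x => by rw [sq, sum_mul]
  simp only [h1]
  rw [sum_thru π G univ fun x l => g l * ∑ l' ∈ thru π G x, g l', sq (∑ l ∈ G, g l), sum_mul,
    mul_sum, ← sum_add_distrib]
  refine sum_congr rfl fun l hl => ?_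
  rw [univ_inter, ← mul_sum, sum_thru π G (π.pts l) fun _ l' => g l']
  have h2 : ∀ l' ∈ G, ∑ _x ∈ π.pts l ∩ π.pts l', g l'
      = (if l' = l then (π.q : ℝ) * g l else 0) + g l' := fun l' _ => by
    rw [sum_const, nsmul_eq_mul]
    split_ifs with h
    · rw [h, inter_self, π.card_pts]
      push_cast
      ring
    · rw [π.meet l l' fun e => h e.symm]
      simp
  rw [sum_congr rfl h2, sum_add_distrib, sum_ite_eq' G l, if_pos hl]
  ring

end MIX

theorem st_MIX : St_MIX := by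
  intro P L _ _ _ _ π G g Z a t ht ha hs hZ
  have hq := q_pos π
  have hN := cardP_real π
  have hN0 : (0 : ℝ) < (π.q : ℝ) ^ 2 + π.q + 1 := by positivity
  have h1 := MIX.first π G g
  have h2 := MIX.second π G g
  generalize ∑ l ∈ G, g l = s at hs h1 h2
  obtain ⟨b, hb⟩ : ∃ b : ℝ, b * ((π.q : ℝ) ^ 2 + π.q + 1) = (π.q + 1) * s :=
    ⟨(π.q + 1) * s / ((π.q : ℝ) ^ 2 + π.q + 1), by field_simp⟩
  have hb1 : b ≤ a * π.q := by
    refine le_of_mul_le_mul_right ?_ hN0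
    rw [hb]
    have := mul_le_mul_of_nonneg_left hs (show (0 : ℝ) ≤ π.q + 1 by positivity)
    have := mul_nonneg ha hq.le
    nlinarith
  have h3 : (Z.card : ℝ) * t ^ 2 ≤ ∑ x, (∑ l ∈ thru π G x, g l - b) ^ 2 := by
    rw [← nsmul_eq_mul, ← sum_const]
    refine (sum_le_sum fun x hx => ?_).trans
      (sum_le_sum_of_subset_of_nonneg (subset_univ Z) fun _ _ _ => sq_nonneg _)
    exact pow_le_pow_left₀ ht (by linarith [hZ x hx]) 2
  have h4 : ∑ x, (∑ l ∈ thru π G x, g l - b) ^ 2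
      = ∑ x, (∑ l ∈ thru π G x, g l) ^ 2 - 2 * b * ∑ x, ∑ l ∈ thru π G x, g l
        + ((π.q : ℝ) ^ 2 + π.q + 1) * b ^ 2 := by
    rw [← hN, ← card_univ, ← nsmul_eq_mul, ← sum_const, mul_sum, ← sum_sub_distrib,
      ← sum_add_distrib]
    exact sum_congr rfl fun x _ => by ring
  rw [h4, h1, h2] at h3
  have h5 : s ^ 2 ≤ b * ((π.q + 1) * s) := by
    refine le_of_mul_le_mul_right ?_ hN0
    have e : b * ((π.q + 1) * s) * ((π.q : ℝ) ^ 2 + π.q + 1) = ((π.q + 1) * s) ^ 2 := by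
      rw [mul_right_comm, hb, sq]
    rw [e]
    nlinarith [mul_nonneg hq.le (sq_nonneg s)]
  have h6 : ((π.q : ℝ) ^ 2 + π.q + 1) * b ^ 2 = b * ((π.q + 1) * s) := by
    rw [← hb]
    ring
  linarith

end Pool.Agent.Lib.AL
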