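import Pool.Agent.Lib.AL.Blue

/-! One multiplicative update. -/

namespace Pool.Agent.Lib.AL

open Finset

namespace MWB

lemma half_le_log {h : ℝ} (h0 : 0 ≤ h) (h1 : h ≤ 1) : h / 2 ≤ Real.log (1 + h) := by
  have hp : 0 < 1 + h := by linarith
  refine le_trans ?_ (Real.one_sub_inv_le_log_of_pos hp)
  have e : 1 - (1 + h)⁻¹ = h / (1 + h) := by field_simp; ring
  rw [e]
  exact div_le_div_of_nonneg_left h0 hp (by linarith)

end MWB

theorem st_MW : St_MW := by
  intro P _ _ m δ p h B hm hp hs hB h0 h1
  have hS : 0 ≤ ∑ y, p y * h y := sum_nonneg fun y _ => mul_nonneg (hp y).le (h0 y)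
  set S := ∑ y, p y * h y with hSd
  have hd : 0 < m + S := by linarith
  have hh : ∀ x, 0 < 1 + h x := fun x => by linarith [h0 x]
  refine ⟨fun x => div_pos (mul_pos (mul_pos (hp x) (hh x)) hm) hd, ?_, fun hδ => ?_⟩
  · simp only [mw, ← hSd]
    rw [← sum_div, ← sum_mul, div_eq_iff hd.ne']
    simp only [mul_add, mul_one, sum_add_distrib, hs, ← hSd]
    ring
  · have h2 : ∀ x, Real.log (p x) + h x / 2 - S / m ≤ Real.log (mw m p h x) := fun x => by
      have e : mw m p h x = p x * (1 + h x) / ((m + S) / m) := by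
        simp only [mw, ← hSd]
        field_simp
      have h3 := Real.log_le_sub_one_of_pos (div_pos hd hm)
      have h4 : (m + S) / m - 1 = S / m := by field_simp; ring
      rw [e, Real.log_div (mul_pos (hp x) (hh x)).ne' (div_pos hd hm).ne',
        Real.log_mul (hp x).ne' (hh x).ne']
      linarith [MWB.half_le_log (h0 x) (h1 x)]
    have h5 := sum_le_sum (s := B) fun x _ => h2 x
    rw [sum_sub_distrib, sum_add_distrib, ← sum_div, sum_const, nsmul_eq_mul] at h5
    have h6 : (B.card : ℝ) * (S / m) ≤ S := by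
      have := mul_le_mul_of_nonneg_right hB (div_nonneg hS hm.le)
      rwa [mul_div_cancel₀ _ hm.ne'] at this
    linarith

end Pool.Agent.Lib.AL
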