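import Pool.Agent.Lib.AL.Blue

/-! Few points of the core lie outside the set. -/

namespace Pool.Agent.Lib.AL

open Finset

namespace OUT

lemma sum_ite {P L : Type} [Fintype P] [Fintype L] [DecidableEq P] [DecidableEq L] (π : Pl P L)
    (G : Finset L) (B : Finset P) (j : ℕ) :
    ∑ l ∈ G, (if (B ∩ π.pts l).card = j then (1 : ℝ) else 0) = lev π G B j := by
  rw [sum_boole, lev]

lemma inter_erase {P : Type} [DecidableEq P] {B S : Finset P} {x : P} (h : x ∉ B) :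
    B ∩ S.erase x = B ∩ S := by
  ext y
  simp only [mem_inter, mem_erase]
  exact ⟨fun u => ⟨u.1, u.2.2⟩, fun u => ⟨u.1, fun e => h (e ▸ u.1), u.2⟩⟩

end OUT

theorem st_OUT (hA : St_BETA) (hP : St_POLY) (hX : St_MIX) : St_OUT := by
  intro P L _ _ _ _ π a τ G B' F j h0 h1 hj hm hl hd
  have _ := hA
  have hq := q_pos π
  have hC : (1 : ℝ) ≤ a.C := by exact_mod_cast a.C_pos
  obtain ⟨-, hg⟩ := hP P τ j a.r h0 h1
  have hK := a.K_eq
  have e0 := a.η_zero_le j hj.le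
  have ej := a.η_pos j
  have ej1 := a.η_pos (j + 1)
  have hq2 : (0 : ℝ) ≤ (π.q : ℝ) ^ 2 := by positivity
  -- tail bounds
  have tl : ∀ (c : ℝ) (D k : ℕ), 0 ≤ c → c ≤ 48 → D ≤ k → 2 * a.r ≤ k → k ≤ a.K →
      ∑ l ∈ G, c ^ D * beta τ k (B' ∩ π.pts l) ≤ a.η j / 2 * (π.q : ℝ) ^ 2 := by
    intro c D k c0 c1 hD hk hk'
    rw [← mul_sum]
    have h2 : c ^ D ≤ 48 ^ k :=
      (pow_le_pow_left₀ c0 c1 D).trans (pow_le_pow_right₀ (by norm_num) hD)
    have h3 := a.tail k hk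
    have h4 := Ak_pos a.C k
    calc c ^ D * ∑ l ∈ G, beta τ k (B' ∩ π.pts l) ≤ c ^ D * (Ak a.C k * (π.q : ℝ) ^ 2) :=
          mul_le_mul_of_nonneg_left (hm k hk') (pow_nonneg c0 _)
      _ ≤ 48 ^ k * (Ak a.C k * (π.q : ℝ) ^ 2) := mul_le_mul_of_nonneg_right h2 (by positivity)
      _ = 48 ^ k * Ak a.C k * (π.q : ℝ) ^ 2 := by ring
      _ ≤ a.η j / 2 * (π.q : ℝ) ^ 2 := mul_le_mul_of_nonneg_right (by linarith) hq2
  have s1 : ∑ l ∈ G, gj τ j (j + 2 * a.r) (B' ∩ π.pts l) ≤ 2 * a.η j * (π.q : ℝ) ^ 2 := by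
    refine (sum_le_sum fun l _ => (hg (B' ∩ π.pts l)).2.2.1).trans ?_
    rw [sum_add_distrib, OUT.sum_ite]
    have := tl 2 (j + 2 * a.r) (j + 2 * a.r) (by norm_num) (by norm_num) le_rfl (by omega)
      (by omega)
    nlinarith
  have s2 : ∑ l ∈ G, gj τ j (j + 2 * a.r) (B' ∩ π.pts l) ^ 2 ≤ 2 * a.η j * (π.q : ℝ) ^ 2 := by
    refine (sum_le_sum fun l _ => (hg (B' ∩ π.pts l)).2.2.2).trans ?_
    rw [sum_add_distrib, sum_add_distrib, OUT.sum_ite]
    have := tl 32 (j + 2 * a.r) (j + 2 * a.r) (by norm_num) (by norm_num) le_rfl (by omega)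
      (by omega)
    have := tl 48 (j + 2 * a.r) (2 * (j + 2 * a.r)) (by norm_num) le_rfl (by omega) (by omega)
      (by omega)
    linarith
  have hx := hX P L π G (fun l => gj τ j (j + 2 * a.r) (B' ∩ π.pts l))
    (core π τ G j (j + 2 * a.r) (a.η (j + 1) / (8 * a.C)) F \ B') (2 * a.η j)
    (a.η (j + 1) / (16 * a.C) * π.q) (by positivity) (by positivity) s1 (fun x hx => by
      obtain ⟨x1, x2⟩ := mem_sdiff.1 hx
      rw [mem_core] at x1
      have x3 : mean π τ G (fj τ j (j + 2 * a.r)) B' x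
          = ∑ l ∈ thru π G x, gj τ j (j + 2 * a.r) (B' ∩ π.pts l) := by
        unfold mean gj
        simp only [OUT.inter_erase x2]
      have x4 := (abs_le.1 (hd x)).2
      have x5 := mul_le_mul_of_nonneg_right (a.η_gap j hj) hq.le
      have x6 : a.η (j + 1) / (8 * a.C) * π.q = 2 * (a.η (j + 1) / (16 * a.C) * π.q) := by
        field_simp
        ring
      rw [← x3]
      nlinarith)
  have h5 := hx.trans (mul_le_mul_of_nonneg_left s2 hq.le)
  have h6 : (0 : ℝ) < (a.η (j + 1) / (16 * a.C) * π.q) ^ 2 := by positivity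
  refine le_of_mul_le_mul_right (h5.trans (le_of_eq ?_)) h6
  rw [a.η_rec j hj]
  field_simp
  ring

end Pool.Agent.Lib.AL
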