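import Pool.Agent.Lib.AL.Blue

/-! Existence of the constants. -/

namespace Pool.Agent.Lib.AL

open Finset Filter

namespace PARB

/-- The decreasing sequence of thresholds. -/
lemma exists_seq (C : ℕ) (κ x₀ : ℝ) (hC : 1 ≤ C) (hκ : 0 < κ) (hκ1 : κ ≤ 1) (h0 : 0 < x₀)
    (h1 : x₀ ≤ 1) : ∃ u : ℕ → ℝ, u 0 = x₀ ∧ (∀ n, 0 < u n) ∧ (∀ n, u n ≤ 1) ∧ Antitone u ∧
      (∀ n, u (n + 1) = κ * u n ^ 3 / (2048 * C ^ 2)) ∧ ∀ n, 2 * u (n + 1) ≤ u n / (32 * C) := by
  have hC' : (1 : ℝ) ≤ C := by exact_mod_cast hC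
  let ψ : ℝ → ℝ := fun x => κ * x ^ 3 / (2048 * C ^ 2)
  have key : ∀ x : ℝ, 0 < x → x ≤ 1 → 0 < ψ x ∧ 2 * ψ x ≤ x / (32 * C) ∧ ψ x ≤ x := by
    intro x hx hx1
    have a0 : 0 < ψ x := by simp only [ψ]; positivity
    have a1 : κ * x ^ 3 ≤ x := by
      have b1 : x ^ 3 ≤ x := by
        have := pow_le_one₀ (n := 2) hx.le hx1
        nlinarith
      have b2 : κ * x ^ 3 ≤ 1 * x ^ 3 := mul_le_mul_of_nonneg_right hκ1 (by positivity)
      linarith
    have a2 : ψ x ≤ x / (64 * C) :=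
      div_le_div₀ hx.le a1 (by positivity) (by nlinarith)
    have a3 : x / (32 * C) = 2 * (x / (64 * C)) := by field_simp; norm_num
    have a4 : x / (64 * C) ≤ x := div_le_self hx.le (by linarith)
    exact ⟨a0, by linarith, by linarith⟩
  have hs : ∀ n, ψ^[n + 1] x₀ = ψ (ψ^[n] x₀) := fun n => Function.iterate_succ_apply' ψ n x₀
  have hb : ∀ n, 0 < ψ^[n] x₀ ∧ ψ^[n] x₀ ≤ 1 := by
    intro n
    induction n with
    | zero => exact ⟨h0, h1⟩
    | succ n ih =>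
      rw [hs]
      obtain ⟨k1, _, k3⟩ := key _ ih.1 ih.2
      exact ⟨k1, k3.trans ih.2⟩
  refine ⟨fun n => ψ^[n] x₀, rfl, fun n => (hb n).1, fun n => (hb n).2, ?_, hs, fun n => ?_⟩
  · refine antitone_nat_of_succ_le fun n => ?_
    rw [hs]
    exact (key _ (hb n).1 (hb n).2).2.2
  · simp only [hs]
    exact (key _ (hb n).1 (hb n).2).2.1

lemma exists_r (C : ℕ) {c : ℝ} (hc : 0 < c) :
    ∃ r : ℕ, ∀ k, 2 * r ≤ k → 48 ^ k * Ak C k ≤ c := by
  have h := (FloorSemiring.tendsto_pow_div_factorial_atTop (48 * (8 * (C : ℝ) + 1))).eventually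
    (ge_mem_nhds (half_pos hc))
  obtain ⟨r, hr⟩ := eventually_atTop.1 h
  refine ⟨r, fun k hk => ?_⟩
  have h1 := hr k (by omega)
  have h2 : 48 ^ k * Ak C k = 2 * ((48 * (8 * (C : ℝ) + 1)) ^ k / k.factorial) := by
    rw [Ak, mul_pow]; ring
  linarith

lemma exists_min (C K : ℕ) : ∃ m : ℝ, 0 < m ∧ ∀ k ≤ K, m ≤ Ak C k := by
  obtain ⟨k₀, _, hk₀⟩ := Finset.exists_min_image (range (K + 1)) (Ak C) ⟨0, by simp⟩
  exact ⟨Ak C k₀, Ak_pos _ _, fun k hk => hk₀ k (Finset.mem_range.2 (by omega))⟩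

end PARB

open PARB in
theorem st_PAR : St_PAR := by
  intro C κ hC hκ hκ1
  have hC' : (1 : ℝ) ≤ C := by exact_mod_cast hC
  obtain ⟨u, u0, upos, -, uanti, urec, ugap⟩ :=
    exists_seq C κ (1 / (4 * (((4 * C : ℕ) : ℝ) + 1))) hC hκ hκ1 (by positivity)
      (by rw [div_le_one (by positivity)]; have : (0 : ℝ) ≤ ((4 * C : ℕ) : ℝ) := Nat.cast_nonneg _
          linarith)
  set J := 4 * C with hJ
  have e0 := upos J
  obtain ⟨r, hr⟩ := exists_r C (half_pos e0)
  set K := 2 * J + 4 * r with hK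
  obtain ⟨m, m0, hm⟩ := exists_min C K
  set Am : ℝ := ∑ k ∈ range (K + 1), Ak C k with hAm
  have Am0 : 0 ≤ Am := Finset.sum_nonneg fun k _ => (Ak_pos C k).le
  set vt : ℝ := u J / 2 with hvt
  have vt0 : 0 < vt := half_pos e0
  set T : ℝ := 4 * K * (4 * C * Am + C) / vt + 1 with hT
  have T0 : 0 < T := by positivity
  set θ : ℝ := min (vt / (2 * K + 1)) (m / (2 * T)) with hθ
  have θ0 : 0 < θ := lt_min (by positivity) (by positivity)
  set ε : ℝ := min (min 1 (m / (6 * C))) (u J / (32 * C)) with hε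
  have ε0 : 0 < ε := lt_min (lt_min one_pos (by positivity)) (by positivity)
  have ε1 : ε ≤ 1 := (min_le_left _ _).trans (min_le_left _ _)
  have ε2 : ε ≤ m / (6 * C) := (min_le_left _ _).trans (min_le_right _ _)
  have ε3 : ε ≤ u J / (32 * C) := min_le_right _ _
  have θ1 : θ ≤ vt / (2 * K + 1) := min_le_left _ _
  have θ2 : θ ≤ m / (2 * T) := min_le_right _ _
  refine ⟨⟨C, J, r, K, κ, ε, T, θ, vt, Am, fun j => u (J - j), hC, rfl, rfl, hκ, ε0, T0, θ0,
    fun j => upos _, fun j _ => uanti (by omega), fun j _ => ?_, fun j hj => ?_, fun j hj => ?_,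
    hr, fun k hk => ?_, fun k hk => ?_, ?_, ?_⟩, rfl, rfl⟩
  · rw [← u0]
    exact uanti (Nat.zero_le _)
  · rw [show J - j = J - (j + 1) + 1 by omega, urec]
  · rw [show J - j = J - (j + 1) + 1 by omega]
    have a1 := ugap (J - (j + 1))
    have a2 : u J / (32 * C) ≤ u (J - (j + 1)) / (32 * C) :=
      div_le_div_of_nonneg_right (uanti (by omega)) (by positivity)
    have a3 : u (J - (j + 1)) / (16 * C) = 2 * (u (J - (j + 1)) / (32 * C)) := by
      field_simp; ring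
    linarith
  · exact Finset.single_le_sum (f := Ak C) (fun k _ => (Ak_pos C k).le)
      (Finset.mem_range.2 (by omega))
  · have a1 := hm k hk
    rw [le_div_iff₀ (by positivity)] at ε2 θ2
    nlinarith
  · have K0 : (0 : ℝ) ≤ K := Nat.cast_nonneg _
    have a1 : (K : ℝ) * θ ≤ vt / 2 := by
      rw [le_div_iff₀ (by positivity)] at θ1
      nlinarith
    have a2 : (K : ℝ) * (2 * (4 * C * Am + ε * C) / T) ≤ vt / 2 := by
      rw [← mul_div_assoc, div_le_iff₀ T0]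
      have b1 : vt / 2 * T = 2 * K * (4 * C * Am + C) + vt / 2 := by
        rw [hT]; field_simp; ring
      have b2 : ε * C ≤ C := by nlinarith
      have b3 : (K : ℝ) * (2 * (4 * C * Am + ε * C)) ≤ K * (2 * (4 * C * Am + C)) :=
        mul_le_mul_of_nonneg_left (by linarith) K0
      nlinarith
    rw [mul_add]
    linarith
  · simp only [Nat.sub_zero]
    linarith

end Pool.Agent.Lib.AL
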