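import Pool.Agent.Lib.AL.Blue

/-! Pairwise balanced designs without small or bounded transversals. -/

namespace Pool.Agent.Lib.AL

open Finset

namespace PBD

variable {P L : Type} [Fintype P] [Fintype L] [DecidableEq P] [DecidableEq L]

theorem line (π : Pl P L) (x y : P) : ∃ l, x ∈ π.pts l ∧ y ∈ π.pts l := by
  by_cases h : x = y
  · obtain ⟨l, hl⟩ := card_pos.1 ((Nat.succ_pos π.q).trans_eq (π.card_thru x).symm)
    exact ⟨l, (mem_filter.1 hl).2, h ▸ (mem_filter.1 hl).2⟩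
  · obtain ⟨l, hl⟩ := card_pos.1 (Nat.one_pos.trans_eq (π.join x y h).symm)
    exact ⟨l, (mem_filter.1 hl).2⟩

theorem line_eq (π : Pl P L) {x y : P} (h : x ≠ y) {l l' : L} (h1 : x ∈ π.pts l ∧ y ∈ π.pts l)
    (h2 : x ∈ π.pts l' ∧ y ∈ π.pts l') : l = l' :=
  card_le_one.1 (π.join x y h).le l (mem_filter.2 ⟨mem_univ _, h1⟩) l'
    (mem_filter.2 ⟨mem_univ _, h2⟩)

end PBD

theorem st_PBD (hE : St_EXIST) (hT : St_THIN) : St_PBD := by
  intro c C n₀ hc
  obtain ⟨q₀, hq₀⟩ := hT (max c (1 / 2)) (2 * C) (max_lt hc (by norm_num))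
  obtain ⟨P, L, _, _, _, _, π, hq⟩ := hE (max q₀ (2 * n₀))
  obtain ⟨R, h1, h2⟩ := hq₀ P L π (le_of_max_le_left hq)
  have q0 := q_pos π
  have q2 := π.two_le
  let f : Fin R.card → P := fun i => (R.equivFin.symm i).1
  have f1 : Function.Injective f := Subtype.val_injective.comp R.equivFin.symm.injective
  let A : L → Finset (Fin R.card) := fun l => univ.filter fun i => f i ∈ π.pts l
  have a1 : ∀ {l i}, i ∈ A l ↔ f i ∈ π.pts l := by simp [A]
  have a2 : ∀ l, (R ∩ π.pts l).card ≤ (A l).card := fun l =>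
    le_trans (card_le_card fun x hx => mem_image.2 ⟨R.equivFin ⟨x, (mem_inter.1 hx).1⟩,
      a1.2 (by simpa [f] using (mem_inter.1 hx).2), by simp [f]⟩) (card_image_le (f := f))
  have s1 : Real.sqrt R.card ≤ π.q + 1 := by
    have h3 : (R.card : ℝ) ≤ Fintype.card P := by exact_mod_cast card_le_univ R
    rw [cardP_real π] at h3
    exact Real.sqrt_le_iff.2 ⟨by positivity, by nlinarith⟩
  obtain ⟨l₀⟩ : Nonempty L := Fintype.card_pos_iff.1 (π.cardL ▸ Nat.succ_pos _)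
  refine ⟨R.card, ?_, univ.image A, ?_, fun x y hxy => ?_, fun S hS => ?_⟩
  · have h3 : ((R ∩ π.pts l₀).card : ℝ) ≤ R.card := by
      exact_mod_cast card_le_card inter_subset_left
    have h4 : ((2 * n₀ : ℕ) : ℝ) ≤ π.q := by exact_mod_cast le_of_max_le_right hq
    have h5 := mul_le_mul_of_nonneg_right (le_max_right c (1 / 2)) (by linarith : 0 ≤ π.q + (1 : ℝ))
    have h6 := h1 l₀
    push_cast at h4
    exact_mod_cast (by linarith : (n₀ : ℝ) ≤ R.card)
  · intro B hB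
    obtain ⟨l, -, rfl⟩ := mem_image.1 hB
    refine (mul_le_mul (le_max_left c (1 / 2)) s1 (Real.sqrt_nonneg _)
      (le_max_of_le_right (by norm_num))).trans_lt ((h1 l).trans_le ?_)
    exact_mod_cast a2 l
  · obtain ⟨l, hl⟩ := PBD.line π (f x) (f y)
    refine ⟨A l, ⟨mem_image_of_mem _ (mem_univ l), a1.2 hl.1, a1.2 hl.2⟩, ?_⟩
    rintro B ⟨hB, h3, h4⟩
    obtain ⟨l', -, rfl⟩ := mem_image.1 hB
    rw [PBD.line_eq π (f1.ne hxy) hl ⟨a1.1 h3, a1.1 h4⟩]
  · have h3 : ∀ l, ∃ i ∈ S, f i ∈ π.pts l := fun l => by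
      obtain ⟨i, hi⟩ := card_pos.1 (hS _ (mem_image_of_mem A (mem_univ l)))
      exact ⟨i, (mem_inter.1 hi).2, a1.1 (mem_inter.1 hi).1⟩
    have h4 := h2 (S.image f) (image_subset_iff.2 fun i _ => (R.equivFin.symm i).2) fun l => by
      obtain ⟨i, h5, h6⟩ := h3 l
      exact ⟨f i, mem_image_of_mem f h5, h6⟩
    rw [card_image_of_injective _ f1] at h4
    have h5 : (π.q + 1) * C < S.card := lt_of_le_of_lt (by nlinarith) h4
    refine ⟨(mul_le_mul_of_nonneg_left s1 C.cast_nonneg).trans_lt ?_, ?_⟩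
    · rw [mul_comm]
      exact_mod_cast h5
    · by_contra! h6
      obtain ⟨x, -, -⟩ := h3 l₀
      have h7 : S ⊆ (univ.filter fun l => f x ∈ π.pts l).biUnion fun l => A l ∩ S := fun y hy => by
        obtain ⟨l, hl⟩ := PBD.line π (f x) (f y)
        exact mem_biUnion.2 ⟨l, mem_filter.2 ⟨mem_univ _, hl.1⟩, mem_inter.2 ⟨a1.2 hl.2, hy⟩⟩
      have h8 := (card_le_card h7).trans (card_biUnion_le_card_mul _ _ C fun l _ =>
        h6 _ (mem_image_of_mem A (mem_univ l)))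
      rw [π.card_thru] at h8
      omega

end Pool.Agent.Lib.AL
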