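import Pool.Agent.Lib.AL.Blue

/-! Properties of the truncated inclusion-exclusion weights. -/

namespace Pool.Agent.Lib.AL

open Finset

namespace POLYB

lemma abs_fj_le {τ : ℝ} (h0 : 0 < τ) (h1 : τ < 1) (j D k : ℕ) : |fj τ j D k| ≤ (2 / τ) ^ D := by
  unfold fj
  split_ifs with h
  · have a0 : 0 ≤ (1 - τ) / τ := div_nonneg (by linarith) h0.le
    have a1 : (1 - τ) / τ ≤ 1 / τ := div_le_div_of_nonneg_right (by linarith) h0.le
    have a2 : (k.choose j : ℝ) ≤ 2 ^ k := by exact_mod_cast Nat.choose_le_two_pow k j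
    have a3 : (1 : ℝ) ≤ 2 / τ := by rw [le_div_iff₀ h0]; linarith
    rw [abs_mul, abs_mul, abs_pow, abs_neg, abs_one, one_pow, one_mul, Nat.abs_cast,
      abs_of_nonneg (pow_nonneg a0 k)]
    calc (k.choose j : ℝ) * ((1 - τ) / τ) ^ k ≤ 2 ^ k * (1 / τ) ^ k :=
          mul_le_mul a2 (pow_le_pow_left₀ a0 a1 k) (pow_nonneg a0 k) (by positivity)
      _ = (2 / τ) ^ k := by rw [← mul_pow, mul_one_div]
      _ ≤ (2 / τ) ^ D := pow_le_pow_right₀ a3 h.2
  · rw [abs_zero]; positivity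

lemma fj_eq_sum (τ : ℝ) (j D n : ℕ) : fj τ j D n = ∑ k ∈ Icc j D,
    ((-1) ^ (k - j) * (k.choose j : ℝ) * ((1 - τ) / τ) ^ k) * if n = k then 1 else 0 := by
  simp only [mul_ite, mul_one, mul_zero, Finset.sum_ite_eq, Finset.mem_Icc, fj]

lemma gj_eq (hB : St_BIN) (hC : St_CH) {P : Type} [Fintype P] [DecidableEq P] {τ : ℝ}
    (h0 : 0 < τ) (j r : ℕ) (S : Finset P) :
    gj τ j (j + 2 * r) S = (1 - τ) ^ S.card * if S.card = j then 1 else
      (S.card.choose j : ℝ) * ((S.card - j - 1).choose (2 * r) : ℝ) := by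
  rw [← hC.2, gj]
  simp only [fj_eq_sum]
  rw [Ex_sum, Finset.mul_sum]
  refine Finset.sum_congr rfl fun k _ => ?_
  rw [Ex_const_mul, hB]
  by_cases hk : k ≤ S.card
  · have e1 : (1 - τ) ^ S.card = (1 - τ) ^ k * (1 - τ) ^ (S.card - k) := by
      rw [← pow_add, Nat.add_sub_cancel' hk]
    have e2 : ((1 - τ) / τ) ^ k * τ ^ k = (1 - τ) ^ k := by
      rw [← mul_pow, div_mul_cancel₀ _ h0.ne']
    rw [e1, ← e2]
    ring
  · rw [Nat.choose_eq_zero_of_lt (not_le.1 hk)]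
    simp

lemma choose_bound (n j r : ℕ) :
    n.choose j * (n - j - 1).choose (2 * r) ≤ 2 ^ (j + 2 * r) * n.choose (j + 2 * r) := by
  have h1 : n.choose (j + 2 * r) * (j + 2 * r).choose j
      = n.choose j * (n - j).choose (j + 2 * r - j) := Nat.choose_mul (Nat.le_add_right _ _)
  rw [Nat.add_sub_cancel_left] at h1
  calc n.choose j * (n - j - 1).choose (2 * r) ≤ n.choose j * (n - j).choose (2 * r) :=
        Nat.mul_le_mul_left _ (Nat.choose_le_choose _ (Nat.sub_le _ _))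
    _ = n.choose (j + 2 * r) * (j + 2 * r).choose j := h1.symm
    _ ≤ n.choose (j + 2 * r) * 2 ^ (j + 2 * r) :=
        Nat.mul_le_mul_left _ (Nat.choose_le_two_pow _ _)
    _ = _ := Nat.mul_comm _ _

end POLYB

open POLYB in
theorem st_POLY (hB : St_BIN) (hA : St_BETA) (hC : St_CH) : St_POLY := by
  intro P _ _ τ j r h0 h1
  refine ⟨abs_fj_le h0 h1 j _, fun S => ?_⟩
  obtain ⟨b0, -, -, -, b5⟩ := hA P τ h0 h1.le
  have hg := gj_eq hB hC h0 j r S
  set D := j + 2 * r with hD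
  have p0 : 0 ≤ (1 - τ) ^ S.card := pow_nonneg (by linarith) _
  have p1 : (1 - τ) ^ S.card ≤ 1 := pow_le_one₀ (by linarith) (by linarith)
  have c1 := b0 D S
  have c2 := b0 (2 * D) S
  by_cases hn : S.card = j
  · rw [if_pos hn, mul_one] at hg
    rw [if_pos hn, hg]
    have d1 : 0 ≤ 2 ^ D * beta τ D S := by positivity
    have d2 : 0 ≤ 32 ^ D * beta τ D S := by positivity
    have d3 : 0 ≤ 48 ^ D * beta τ (2 * D) S := by positivity
    refine ⟨p0, fun _ => by rw [hn], by linarith, ?_⟩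
    nlinarith
  · rw [if_neg hn] at hg
    rw [if_neg hn, zero_add, zero_add]
    have q1 : (S.card.choose j : ℝ) * ((S.card - j - 1).choose (2 * r) : ℝ)
        ≤ 2 ^ D * (S.card.choose D : ℝ) := by exact_mod_cast choose_bound S.card j r
    have q0 : 0 ≤ (S.card.choose j : ℝ) * ((S.card - j - 1).choose (2 * r) : ℝ) := by positivity
    have q2 : (S.card.choose D : ℝ) ^ 2
        ≤ 8 ^ D * (S.card.choose D : ℝ) + 12 ^ D * (S.card.choose (2 * D) : ℝ) := by
      exact_mod_cast hC.1 S.card D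
    have g0 : 0 ≤ gj τ j D S := by rw [hg]; exact mul_nonneg p0 q0
    have g1 : gj τ j D S ≤ (1 - τ) ^ S.card * (2 ^ D * (S.card.choose D : ℝ)) := by
      rw [hg]; exact mul_le_mul_of_nonneg_left q1 p0
    have r1 := b5 D S
    have r2 := b5 (2 * D) S
    refine ⟨g0, fun h => absurd h hn, ?_, ?_⟩
    · have := mul_le_mul_of_nonneg_left r1 (show (0 : ℝ) ≤ 2 ^ D by positivity)
      linarith
    · have s1 : gj τ j D S ^ 2 ≤ ((1 - τ) ^ S.card * (2 ^ D * (S.card.choose D : ℝ))) ^ 2 :=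
        pow_le_pow_left₀ g0 g1 2
      have s2 : ((1 - τ) ^ S.card) ^ 2 ≤ (1 - τ) ^ S.card := by nlinarith
      have s3 : ((2 : ℝ) ^ D) ^ 2 = 4 ^ D := by
        rw [sq, ← mul_pow]; norm_num
      have s4 : (32 : ℝ) ^ D = 4 ^ D * 8 ^ D := by rw [← mul_pow]; norm_num
      have s5 : (48 : ℝ) ^ D = 4 ^ D * 12 ^ D := by rw [← mul_pow]; norm_num
      have s6 : ((1 - τ) ^ S.card) ^ 2 * (S.card.choose D : ℝ) ^ 2 ≤ (1 - τ) ^ S.card *
          (8 ^ D * (S.card.choose D : ℝ) + 12 ^ D * (S.card.choose (2 * D) : ℝ)) :=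
        mul_le_mul s2 q2 (by positivity) p0
      have s7 := mul_le_mul_of_nonneg_left r1 (show (0 : ℝ) ≤ 8 ^ D by positivity)
      have s8 := mul_le_mul_of_nonneg_left r2 (show (0 : ℝ) ≤ 12 ^ D by positivity)
      have s9 : ((1 - τ) ^ S.card) ^ 2 * (S.card.choose D : ℝ) ^ 2
          ≤ 8 ^ D * beta τ D S + 12 ^ D * beta τ (2 * D) S := by linarith
      have s10 := mul_le_mul_of_nonneg_left s9 (show (0 : ℝ) ≤ 4 ^ D by positivity)
      rw [mul_pow, mul_pow, s3] at s1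
      rw [s4, s5]
      linarith

end Pool.Agent.Lib.AL
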