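import Pool.Agent.Lib.AL.Blue

/-! The random subset theorem from the core theorem. -/

namespace Pool.Agent.Lib.AL

open Finset

namespace RAND

variable {P : Type} [Fintype P] [DecidableEq P]

omit [Fintype P] in
lemma prod_eq (Y R : Finset P) :
    (∏ x ∈ Y, if x ∈ R then (1 : ℝ) else 1 / 2) = Real.exp (-(Real.log 2 * (Y \ R).card)) := by
  rw [Finset.prod_ite, Finset.prod_const_one, one_mul, Finset.prod_const, ← Finset.sdiff_eq_filter,
    Real.exp_neg, mul_comm, Real.exp_nat_mul, Real.exp_log (by norm_num), one_div, inv_pow]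

lemma Ex_eq {ρ : ℝ} (h : 0 ≤ ρ) (Y : Finset P) :
    Ex ρ (fun R => ∏ x ∈ Y, if x ∈ R then (1 : ℝ) else 1 / 2)
      = Real.exp (Y.card * Real.log ((1 + ρ) / 2)) := by
  rw [Ex_prod_mem, Real.exp_nat_mul, Real.exp_log (by positivity)]
  congr 1
  ring

end RAND

theorem st_RAND (hC : St_CORE) : St_RAND := by
  classical
  intro ρ C h0 h1
  obtain ⟨lam, hlam⟩ : ∃ lam : ℝ, lam = -Real.log ((1 + ρ) / 2) := ⟨_, rfl⟩
  have hl : 0 < lam := by
    rw [hlam, neg_pos]
    exact Real.log_neg (by positivity) (by linarith)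
  have h2 : 0 < Real.log 2 := Real.log_pos (by norm_num)
  obtain ⟨γ, hγ, hC⟩ := hC C (lam / (2 * Real.log 2)) (by positivity)
  obtain ⟨q₀, hC⟩ := hC (lam * γ / 4) (by positivity)
  refine ⟨lam * γ / 4, by positivity, q₀, fun P L _ _ _ _ π hq bad hbad => ?_⟩
  obtain ⟨YY, hcard, hY⟩ := hC P L π hq
  let Z := YY.filter fun Y => γ * π.q ≤ (Y.card : ℝ)
  let f : Finset P → Finset P → ℝ := fun Y R =>
    Real.exp (lam / 2 * Y.card) * ∏ x ∈ Y, if x ∈ R then (1 : ℝ) else 1 / 2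
  have hf0 : ∀ Y R, 0 ≤ f Y R := fun Y R => by
    simp only [f, RAND.prod_eq]
    positivity
  have hf1 : ∀ R ∈ bad, 1 ≤ ∑ Y ∈ Z, f Y R := by
    intro R hR
    obtain ⟨B, hBR, hB, hBc⟩ := hbad R hR
    obtain ⟨Y, hYY, hY1, hY2⟩ := hY B hB hBc
    refine le_trans ?_ (Finset.single_le_sum (f := fun Y => f Y R) (fun Y _ => hf0 Y R)
      (Finset.mem_filter.2 ⟨hYY, hY1⟩))
    have h3 : ((Y \ R).card : ℝ) ≤ (Y \ B).card := by
      exact_mod_cast Finset.card_le_card (Finset.sdiff_subset_sdiff le_rfl hBR)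
    have h4 : Real.log 2 * ((Y \ R).card : ℝ) ≤ lam / 2 * Y.card := by
      refine (mul_le_mul_of_nonneg_left (h3.trans hY2) h2.le).trans (le_of_eq ?_)
      field_simp
    simp only [f, RAND.prod_eq]
    rw [← Real.exp_add]
    exact Real.one_le_exp (by linarith)
  have hE : ∀ Y ∈ Z, Ex ρ (f Y) ≤ Real.exp (-(lam * γ / 2 * π.q)) := by
    intro Y hY
    have h3 := (Finset.mem_filter.1 hY).2
    simp only [f]
    rw [Ex_const_mul, RAND.Ex_eq h0, ← Real.exp_add, Real.exp_le_exp,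
      show Real.log ((1 + ρ) / 2) = -lam by rw [hlam, neg_neg]]
    nlinarith
  calc ∑ R ∈ bad, wt ρ R ≤ ∑ R ∈ bad, wt ρ R * ∑ Y ∈ Z, f Y R :=
        Finset.sum_le_sum fun R hR => le_mul_of_one_le_right (wt_nonneg h0 h1.le R) (hf1 R hR)
    _ ≤ Ex ρ (fun R => ∑ Y ∈ Z, f Y R) :=
        Finset.sum_le_sum_of_subset_of_nonneg (Finset.subset_univ _) fun R _ _ =>
          mul_nonneg (wt_nonneg h0 h1.le R) (Finset.sum_nonneg fun Y _ => hf0 Y R)
    _ = ∑ Y ∈ Z, Ex ρ (f Y) := Ex_sum ρ Z f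
    _ ≤ Z.card * Real.exp (-(lam * γ / 2 * π.q)) := by
        rw [← nsmul_eq_mul]
        exact Finset.sum_le_card_nsmul _ _ _ hE
    _ ≤ Real.exp (lam * γ / 4 * π.q) * Real.exp (-(lam * γ / 2 * π.q)) := by
        refine mul_le_mul_of_nonneg_right (le_trans ?_ hcard) (Real.exp_pos _).le
        exact_mod_cast Finset.card_filter_le _ _
    _ = Real.exp (-(lam * γ / 4 * π.q)) := by
        rw [← Real.exp_add]
        congr 1
        ring

end Pool.Agent.Lib.AL
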