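import Pool.Agent.Lib.AL.Blue

/-! A small sample that estimates the statistic at all points. -/

namespace Pool.Agent.Lib.AL

open Finset

namespace SAMP

variable {P : Type} [Fintype P] [DecidableEq P]

theorem ex_card (τ : ℝ) (B : Finset P) :
    Ex τ (fun W => ((W ∩ B).card : ℝ)) = τ * B.card := by
  have e1 : (fun W : Finset P => ((W ∩ B).card : ℝ)) =
      fun W => ∑ x ∈ B, if x ∈ W then (1 : ℝ) else 0 := by
    funext W
    rw [Finset.sum_boole, Finset.filter_mem_eq_inter, Finset.inter_comm]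
  rw [e1, Ex_sum]
  simp only [Ex_mem, mul_one, mul_zero, add_zero, Finset.sum_const, nsmul_eq_mul]
  ring

theorem markov {τ m : ℝ} (h0 : 0 < τ) (h1 : τ ≤ 1) (hm : 0 < m) (B : Finset P)
    (hB : (B.card : ℝ) ≤ m) :
    Ex τ (fun W => if 2 * τ * m < ((W ∩ B).card : ℝ) then (1 : ℝ) else 0) ≤ 1 / 2 := by
  have hp : 0 < 2 * τ * m := by positivity
  refine (Ex_mono h0.le h1 (g := fun W => (2 * τ * m)⁻¹ * ((W ∩ B).card : ℝ)) fun W => ?_).trans ?_
  · split_ifs with h
    · rw [← div_eq_inv_mul, le_div_iff₀ hp]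
      linarith
    · positivity
  · rw [Ex_const_mul, ex_card, ← div_eq_inv_mul, div_le_iff₀ hp]
    nlinarith

end SAMP

theorem st_SAMP (hH : St_HOEF) : St_SAMP := by
  intro P L _ _ _ _ π τ V e m G f B h0 h1 hV hm hB hf he he' hc
  have hq := q_pos π
  have key : ∀ x : P, Ex τ (fun W =>
      if V * e < |stat π G f (W ∩ B) x - mean π τ G f B x| then (1 : ℝ) else 0) ≤
      2 * Real.exp (-(e ^ 2 / (16 * (π.q + 1)))) := by
    intro x
    have h2 := hH P L τ V e (π.q + 1) (thru π G x) (fun l => B ∩ (π.pts l).erase x)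
      (fun l W => f (W ∩ (B ∩ (π.pts l).erase x)).card) h0.le h1 hV (by positivity)
      (by exact_mod_cast card_thru_le π G x) he he'
      (fun l _ => dep_inter _ fun S => f S.card)
      (fun l hl l' hl' hne => (disj_erase π hne (mem_thru.1 hl).2 (mem_thru.1 hl').2).mono
        Finset.inter_subset_right Finset.inter_subset_right)
      (fun l _ W => hf _)
    simpa only [stat, mean, Finset.inter_assoc] using h2
  have h3 : Ex τ (fun W => (if 2 * τ * m < ((W ∩ B).card : ℝ) then (1 : ℝ) else 0) +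
      ∑ x : P, if V * e < |stat π G f (W ∩ B) x - mean π τ G f B x| then (1 : ℝ) else 0) < 1 := by
    rw [Ex_add, Ex_sum]
    have h4 := SAMP.markov h0 h1 hm B hB
    have h5 := Finset.sum_le_sum fun x (_ : x ∈ (univ : Finset P)) => key x
    rw [Finset.sum_const, Finset.card_univ, nsmul_eq_mul, cardP_real π] at h5
    linarith
  obtain ⟨W, hW⟩ := exists_lt_of_Ex_lt h0.le h1 h3
  have n1 : ∀ x ∈ (univ : Finset P), (0 : ℝ) ≤
      if V * e < |stat π G f (W ∩ B) x - mean π τ G f B x| then (1 : ℝ) else 0 := by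
    intro x _
    split_ifs <;> norm_num
  have n2 := Finset.sum_nonneg n1
  refine ⟨W ∩ B, ?_, fun x => ?_⟩
  · by_contra h
    rw [if_pos (not_le.1 h)] at hW
    linarith
  · by_contra h
    have h6 := Finset.single_le_sum n1 (Finset.mem_univ x)
    rw [if_pos (not_le.1 h)] at h6
    have h7 : (0 : ℝ) ≤ if 2 * τ * m < ((W ∩ B).card : ℝ) then (1 : ℝ) else 0 := by
      split_ifs <;> norm_num
    linarith

end Pool.Agent.Lib.AL
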