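import Pool.Agent.Lib.AL.Blue

/-! One step of the moment recursion. -/

namespace Pool.Agent.Lib.AL

open Finset

namespace STEP

variable {P L : Type} [Fintype P] [Fintype L] [DecidableEq P] [DecidableEq L]

lemma stat_nonneg (π : Pl P L) (G : Finset L) {τ : ℝ} (hτ : 0 < τ) (k : ℕ) (F : Finset P) (x : P) :
    0 ≤ stat π G (ind τ k) F x := by
  refine Finset.sum_nonneg fun l _ => ?_
  unfold ind
  split_ifs <;> positivity

lemma mean_eq (π : Pl P L) (τ : ℝ) (G : Finset L) (k : ℕ) (B : Finset P) (x : P) :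
    mean π τ G (ind τ k) B x = ∑ l ∈ thru π G x, beta τ k (B ∩ (π.pts l).erase x) := rfl

end STEP

theorem st_STEP (hA : St_BETA) : St_STEP := by
  intro P L _ _ _ _ π C k τ T ε θ M B B₀ F p hτ hτ1 hT hε hB hB₀ hp hsum hM hacc htest
  classical
  obtain ⟨b0, -, bmono, brec, -⟩ := hA P τ hτ hτ1
  have hq := q_pos π
  set G := good π C p with hG
  set h := hfun π C τ T p k F with hh
  have hTq : 0 < T * π.q := mul_pos hT hq
  have hst : ∀ x, 0 ≤ stat π G (ind τ k) F x := STEP.stat_nonneg π G hτ k F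
  have h0 : ∀ x, 0 ≤ h x := fun x => le_min zero_le_one (div_nonneg (hst x) hTq.le)
  have hle : ∀ x, T * π.q * h x ≤ stat π G (ind τ k) F x := by
    intro x
    have : h x ≤ stat π G (ind τ k) F x / (T * π.q) := min_le_right _ _
    rw [le_div_iff₀ hTq] at this
    linarith
  have hup : ∀ x, stat π G (ind τ k) F x ≤ mean π τ G (ind τ k) B₀ x + ε * π.q := fun x => by
    linarith [(abs_le.1 (hacc x)).2]
  have hlo : ∀ x, mean π τ G (ind τ k) B₀ x ≤ stat π G (ind τ k) F x + ε * π.q := fun x => by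
    linarith [(abs_le.1 (hacc x)).1]
  -- the model average of the mean
  have hpm : ∑ x, p x * mean π τ G (ind τ k) B₀ x ≤ 4 * C * (M * (π.q : ℝ) ^ 2) := by
    calc ∑ x, p x * mean π τ G (ind τ k) B₀ x
        ≤ ∑ x, ∑ l ∈ thru π G x, p x * beta τ k (B₀ ∩ π.pts l) := by
          refine Finset.sum_le_sum fun x _ => ?_
          rw [STEP.mean_eq, Finset.mul_sum]
          refine Finset.sum_le_sum fun l _ => mul_le_mul_of_nonneg_left ?_ (hp x).le
          exact bmono k _ _ (Finset.inter_subset_inter_left (Finset.erase_subset _ _))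
      _ = ∑ l ∈ G, (∑ x ∈ π.pts l, p x) * beta τ k (B₀ ∩ π.pts l) := by
          rw [sum_thru]
          refine Finset.sum_congr rfl fun l _ => ?_
          rw [Finset.univ_inter, Finset.sum_mul]
      _ ≤ ∑ l ∈ G, 4 * C * beta τ k (B₀ ∩ π.pts l) :=
          Finset.sum_le_sum fun l hl => mul_le_mul_of_nonneg_right (mem_good.1 hl) (b0 _ _)
      _ ≤ 4 * C * (M * (π.q : ℝ) ^ 2) := by
          rw [← Finset.mul_sum]
          exact mul_le_mul_of_nonneg_left hM (by positivity)
  have hph : T * π.q * ∑ x, p x * h x ≤ (4 * C * M + ε * C) * (π.q : ℝ) ^ 2 := by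
    calc T * π.q * ∑ x, p x * h x = ∑ x, p x * (T * π.q * h x) := by
          rw [Finset.mul_sum]; exact Finset.sum_congr rfl fun x _ => by ring
      _ ≤ ∑ x, p x * (mean π τ G (ind τ k) B₀ x + ε * π.q) :=
          Finset.sum_le_sum fun x _ =>
            mul_le_mul_of_nonneg_left ((hle x).trans (hup x)) (hp x).le
      _ = ∑ x, p x * mean π τ G (ind τ k) B₀ x + (∑ x, p x) * (ε * π.q) := by
          rw [Finset.sum_mul, ← Finset.sum_add_distrib]
          exact Finset.sum_congr rfl fun x _ => by ring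
      _ ≤ _ := by rw [hsum]; nlinarith
  have hBh : T * π.q * ∑ x ∈ B, h x
      ≤ (2 * (4 * C * M + ε * C) + T * θ) * (π.q : ℝ) ^ 2 := by
    have := mul_le_mul_of_nonneg_left htest hTq.le
    nlinarith
  refine ⟨B₀.filter fun x => h x < 1, Finset.filter_subset _ _, ?_, ?_⟩
  · have e1 : ((B₀ \ B₀.filter fun x => h x < 1).card : ℝ) ≤ ∑ x ∈ B, h x := by
      calc ((B₀ \ B₀.filter fun x => h x < 1).card : ℝ)
          = ∑ x ∈ B₀ \ B₀.filter fun x => h x < 1, (1 : ℝ) := by simp
        _ ≤ ∑ x ∈ B₀ \ B₀.filter fun x => h x < 1, h x := by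
            refine Finset.sum_le_sum fun x hx => ?_
            have h1 := Finset.mem_sdiff.1 hx
            by_contra hc
            exact h1.2 (Finset.mem_filter.2 ⟨h1.1, not_le.1 hc⟩)
        _ ≤ ∑ x ∈ B, h x :=
            Finset.sum_le_sum_of_subset_of_nonneg (Finset.sdiff_subset.trans hB₀)
              fun x _ _ => h0 x
    refine e1.trans ?_
    have e2 : (2 * (4 * C * M + ε * C) / T + θ) * π.q
        = (2 * (4 * C * M + ε * C) + T * θ) * (π.q : ℝ) ^ 2 / (T * π.q) := by
      field_simp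
    rw [e2, le_div_iff₀ hTq]
    linarith
  · set B₁ := B₀.filter fun x => h x < 1 with hB₁
    have hsub : B₁ ⊆ B₀ := Finset.filter_subset _ _
    have heq : ∀ x ∈ B₁, stat π G (ind τ k) F x = T * π.q * h x := by
      intro x hx
      have h1 : h x < 1 := (Finset.mem_filter.1 hx).2
      have h2 : h x = stat π G (ind τ k) F x / (T * π.q) := by
        rcases min_choice (1 : ℝ) (stat π G (ind τ k) F x / (T * π.q)) with h3 | h3
        · exact absurd (show h x = 1 from h3) h1.ne
        · exact h3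
      rw [h2]; field_simp
    have hcard : (B₁.card : ℝ) ≤ C * π.q := by
      exact_mod_cast (Finset.card_le_card (hsub.trans hB₀)).trans hB
    calc ((k : ℝ) + 1) * ∑ l ∈ G, beta τ (k + 1) (B₁ ∩ π.pts l)
        ≤ ∑ l ∈ G, ∑ x ∈ B₁ ∩ π.pts l, beta τ k (B₀ ∩ (π.pts l).erase x) := by
          rw [Finset.mul_sum]
          refine Finset.sum_le_sum fun l _ => (brec k _).trans ?_
          refine Finset.sum_le_sum fun x _ => bmono k _ _ fun y hy => ?_
          have h1 := Finset.mem_erase.1 hy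
          have h2 := Finset.mem_inter.1 h1.2
          exact Finset.mem_inter.2 ⟨hsub h2.1, Finset.mem_erase.2 ⟨h1.1, h2.2⟩⟩
      _ = ∑ x ∈ B₁, mean π τ G (ind τ k) B₀ x := by
          rw [← sum_thru π G B₁ fun x l => beta τ k (B₀ ∩ (π.pts l).erase x)]
          rfl
      _ ≤ ∑ x ∈ B₁, (T * π.q * h x + ε * π.q) :=
          Finset.sum_le_sum fun x hx => by rw [← heq x hx]; exact hlo x
      _ = T * π.q * ∑ x ∈ B₁, h x + B₁.card * (ε * π.q) := by
          rw [Finset.sum_add_distrib, Finset.mul_sum, Finset.sum_const, nsmul_eq_mul]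
      _ ≤ T * π.q * ∑ x ∈ B, h x + C * π.q * (ε * π.q) := by
          have : ∑ x ∈ B₁, h x ≤ ∑ x ∈ B, h x :=
            Finset.sum_le_sum_of_subset_of_nonneg (hsub.trans hB₀) fun x _ _ => h0 x
          gcongr
      _ ≤ _ := by nlinarith

end Pool.Agent.Lib.AL
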