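import Pool.Agent.Lib.AL.Blue

/-! A subset that keeps most points of every line and contains no small blocking set. -/

namespace Pool.Agent.Lib.AL

open Finset

namespace THIN

variable {P : Type} [Fintype P] [DecidableEq P]

omit [Fintype P] in
theorem prod_eq (S W : Finset P) :
    (∏ x ∈ S, if x ∈ W then (1 : ℝ) else 2)
      = Real.exp (((S.card : ℝ) - (W ∩ S).card) * Real.log 2) := by
  have h1 : (S.filter fun x => ¬ x ∈ W) = S \ W := by ext; simp
  have h2 : ((S \ W).card : ℝ) = (S.card : ℝ) - (W ∩ S).card := by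
    have := Finset.card_sdiff_add_card_inter S W
    rw [Finset.inter_comm] at this
    rw [← this]; push_cast; ring
  rw [Finset.prod_ite, Finset.prod_const_one, one_mul, Finset.prod_const, h1, ← h2,
    Real.exp_nat_mul, Real.exp_log (by norm_num)]

/-- Lower tail of the trace on one set. -/
theorem tail {ρ c s : ℝ} (h0 : 0 ≤ ρ) (h1 : ρ ≤ 1) (hs : 2 * s = (1 - c) * Real.log 2)
    (hb : 2 - ρ ≤ Real.exp s) (S : Finset P) :
    Ex ρ (fun W => if ((W ∩ S).card : ℝ) ≤ c * S.card then 1 else 0)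
      ≤ Real.exp (-(s * S.card)) := by
  have hl : 0 < Real.log 2 := Real.log_pos (by norm_num)
  have h2 : ∀ W : Finset P, (if ((W ∩ S).card : ℝ) ≤ c * S.card then (1 : ℝ) else 0)
      ≤ Real.exp (-(2 * s * S.card)) * ∏ x ∈ S, if x ∈ W then (1 : ℝ) else 2 := by
    intro W
    rw [prod_eq, ← Real.exp_add]
    split_ifs with h
    · refine Real.one_le_exp ?_
      rw [hs]
      nlinarith [mul_le_mul_of_nonneg_right h hl.le]
    · exact (Real.exp_pos _).le
  refine (Ex_mono h0 h1 h2).trans ?_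
  rw [Ex_const_mul, Ex_prod_mem]
  have h3 : (ρ * 1 + (1 - ρ) * 2) ^ S.card ≤ Real.exp s ^ S.card :=
    pow_le_pow_left₀ (by linarith) (by linarith) _
  rw [← Real.exp_nat_mul] at h3
  refine (mul_le_mul_of_nonneg_left h3 (Real.exp_pos _).le).trans (le_of_eq ?_)
  rw [← Real.exp_add]
  congr 1
  ring

theorem small1 {s y : ℝ} (hs : 0 < s) (hy : 0 < y) (h : 12 / s ^ 3 < y) :
    y ^ 2 * Real.exp (-(s * y)) < 1 / 2 := by
  have h1 := Real.pow_div_factorial_le_exp (s * y) (by positivity) 3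
  have h2 : ((Nat.factorial 3 : ℕ) : ℝ) = 6 := by norm_num [Nat.factorial]
  rw [h2] at h1
  rw [div_lt_iff₀ (by positivity)] at h
  rw [Real.exp_neg, ← div_eq_mul_inv, div_lt_iff₀ (Real.exp_pos _)]
  have h3 : 12 * y ^ 2 < y * s ^ 3 * y ^ 2 := mul_lt_mul_of_pos_right h (by positivity)
  nlinarith

theorem small2 {x : ℝ} (h : 1 < x) : Real.exp (-x) < 1 / 2 := by
  have h1 := Real.add_one_le_exp x
  rw [Real.exp_neg, inv_eq_one_div]
  exact one_div_lt_one_div_of_lt (by norm_num) (by linarith)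

end THIN

theorem st_THIN (hR : St_RAND) : St_THIN := by
  classical
  intro c C hc
  have hl : 0 < Real.log 2 := Real.log_pos (by norm_num)
  set s : ℝ := (1 - c) * Real.log 2 / 2 with hs
  have hs0 : 0 < s := by
    have : 0 < 1 - c := by linarith
    positivity
  have he : 1 < Real.exp s := Real.one_lt_exp_iff.2 hs0
  set ρ : ℝ := max 0 (2 - Real.exp s) with hρ
  have h0 : 0 ≤ ρ := le_max_left _ _
  have h1 : ρ < 1 := max_lt (by norm_num) (by linarith)
  have hb : 2 - ρ ≤ Real.exp s := by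
    have : 2 - Real.exp s ≤ ρ := le_max_right _ _
    linarith
  obtain ⟨d, hd, q₁, hq₁⟩ := hR ρ C h0 h1
  obtain ⟨q₂, hq₂⟩ := exists_nat_gt (max (12 / s ^ 3) (1 / d))
  refine ⟨max q₁ q₂, ?_⟩
  intro P L _ _ _ _ π hq
  have hq0 := q_pos π
  have hq2 : (q₂ : ℝ) ≤ π.q := by exact_mod_cast (le_max_right _ _).trans hq
  have hqa : 12 / s ^ 3 < (π.q : ℝ) + 1 := by
    have := le_max_left (12 / s ^ 3) (1 / d)
    linarith
  have hqb : 1 < d * π.q := by
    have h2 := le_max_right (12 / s ^ 3) (1 / d)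
    have h3 : 1 / d < π.q := by linarith
    rw [div_lt_iff₀ hd] at h3
    linarith
  set bad : Finset (Finset P) :=
    univ.filter fun R => ∃ B ⊆ R, Blocking π B ∧ B.card ≤ C * π.q with hbad
  have hb1 := hq₁ P L π ((le_max_left _ _).trans hq) bad fun R hR => (Finset.mem_filter.1 hR).2
  have hb2 : Ex ρ (fun W => if W ∈ bad then (1 : ℝ) else 0) = ∑ R ∈ bad, wt ρ R := by
    simp only [Ex, mul_ite, mul_one, mul_zero]
    rw [← Finset.sum_filter]
    congr 1
    ext; simp
  have hline : ∀ l : L, Ex ρ (fun W => if ((W ∩ π.pts l).card : ℝ) ≤ c * (π.q + 1) then 1 else 0)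
      ≤ Real.exp (-(s * (π.q + 1))) := by
    intro l
    have h2 := THIN.tail (c := c) (s := s) h0 h1.le (by rw [hs]; ring) hb (π.pts l)
    rw [π.card_pts l] at h2
    push_cast at h2
    exact h2
  have hE : Ex ρ (fun W => (∑ l : L, if ((W ∩ π.pts l).card : ℝ) ≤ c * (π.q + 1) then 1 else 0)
      + if W ∈ bad then (1 : ℝ) else 0) < 1 := by
    rw [Ex_add, Ex_sum, hb2]
    have h2 := Finset.sum_le_sum fun l (_ : l ∈ (univ : Finset L)) => hline l
    rw [Finset.sum_const, Finset.card_univ, nsmul_eq_mul, cardL_real π] at h2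
    have h3 := THIN.small1 hs0 (by positivity : (0 : ℝ) < π.q + 1) hqa
    have h4 := THIN.small2 hqb
    have h5 : ((π.q : ℝ) ^ 2 + π.q + 1) * Real.exp (-(s * (π.q + 1)))
        ≤ ((π.q : ℝ) + 1) ^ 2 * Real.exp (-(s * (π.q + 1))) :=
      mul_le_mul_of_nonneg_right (by nlinarith) (Real.exp_pos _).le
    linarith
  obtain ⟨R, hRl⟩ := exists_lt_of_Ex_lt h0 h1.le hE
  have hnn : ∀ l ∈ (univ : Finset L),
      (0 : ℝ) ≤ if ((R ∩ π.pts l).card : ℝ) ≤ c * (π.q + 1) then 1 else 0 :=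
    fun l _ => by split_ifs <;> norm_num
  have hn2 : (0 : ℝ) ≤ if R ∈ bad then (1 : ℝ) else 0 := by split_ifs <;> norm_num
  refine ⟨R, fun l => ?_, fun B hB hbl => ?_⟩
  · by_contra h
    rw [not_lt] at h
    have h2 := Finset.single_le_sum hnn (Finset.mem_univ l)
    simp only [if_pos h] at h2
    linarith
  · by_contra h
    rw [not_lt] at h
    have h2 : R ∈ bad := Finset.mem_filter.2 ⟨Finset.mem_univ _, B, hB, hbl, h⟩
    have h3 := Finset.sum_nonneg hnn
    rw [if_pos h2] at hRl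
    linarith

end Pool.Agent.Lib.AL
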