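import Pool.Agent.Lib.AL.B_ASY
import Pool.Agent.Lib.AL.B_BETA
import Pool.Agent.Lib.AL.B_BIG
import Pool.Agent.Lib.AL.B_BIN
import Pool.Agent.Lib.AL.B_BRIDGE
import Pool.Agent.Lib.AL.B_CARD
import Pool.Agent.Lib.AL.B_CH
import Pool.Agent.Lib.AL.B_CORE
import Pool.Agent.Lib.AL.B_EXIST
import Pool.Agent.Lib.AL.B_GOOD
import Pool.Agent.Lib.AL.B_HOEF
import Pool.Agent.Lib.AL.B_ITER
import Pool.Agent.Lib.AL.B_LEV
import Pool.Agent.Lib.AL.B_MIX
import Pool.Agent.Lib.AL.B_MOM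
import Pool.Agent.Lib.AL.B_MW
import Pool.Agent.Lib.AL.B_OUT
import Pool.Agent.Lib.AL.B_PAR
import Pool.Agent.Lib.AL.B_PBD
import Pool.Agent.Lib.AL.B_POLY
import Pool.Agent.Lib.AL.B_RAND
import Pool.Agent.Lib.AL.B_SAMP
import Pool.Agent.Lib.AL.B_STEP
import Pool.Agent.Lib.AL.B_THIN

/-! Blocking sets in random subsets of projective planes: assembly. -/

namespace Pool.Agent.Lib.AL

theorem all_beta : St_BETA := st_BETA st_BIN

theorem all_samp : St_SAMP := st_SAMP st_HOEF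

theorem all_poly : St_POLY := st_POLY st_BIN all_beta st_CH

theorem all_core : St_CORE :=
  st_CORE all_samp all_poly st_GOOD (st_ITER st_MW) st_CARD
    (st_MOM all_samp all_beta (st_STEP all_beta)) st_LEV (st_OUT all_beta all_poly st_MIX)
    (st_BIG all_poly) st_PAR st_ASY

theorem all_rand : St_RAND := st_RAND all_core

theorem all_pbd : St_PBD := st_PBD (st_EXIST st_BRIDGE) (st_THIN all_rand)

end Pool.Agent.Lib.AL
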