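import Pool.Agent.Lib.AL.Blue

/-! Choice of the parameters for large order. -/

namespace Pool.Agent.Lib.AL

namespace ASY

theorem conc {q v : ℝ} (hq : v ^ 2 = q) (hv : 10 ^ 11 ≤ v) {e : ℝ} (he : e ^ 2 = v ^ 3) :
    4 * (q ^ 2 + q + 1) * Real.exp (-(e ^ 2 / (16 * (q + 1)))) < 1 := by
  have h0 : 0 < v := by linarith
  have h1 : 1 ≤ q := by nlinarith
  have h2 : v / 32 ≤ e ^ 2 / (16 * (q + 1)) := by
    rw [he, div_le_div_iff₀ (by norm_num) (by linarith), show v ^ 3 = v * q by rw [← hq]; ring]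
    nlinarith
  have h3 := Real.pow_div_factorial_le_exp (v / 32) (by positivity) 5
  have h4 : 4 * (q ^ 2 + q + 1) < (v / 32) ^ 5 / (Nat.factorial 5 : ℕ) := by
    have h5 : (v / 32) ^ 5 / (Nat.factorial 5 : ℕ) = v / (120 * 32 ^ 5) * q ^ 2 := by
      rw [← hq]
      norm_num [Nat.factorial]
      ring
    have h6 : 13 ≤ v / (120 * 32 ^ 5) := by
      rw [le_div_iff₀ (by norm_num)]
      linarith
    rw [h5]
    nlinarith
  rw [Real.exp_neg, ← div_eq_mul_inv, div_lt_one (Real.exp_pos _)]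
  exact h4.trans_le (h3.trans (Real.exp_le_exp.2 h2))

theorem count {K J M s tm : ℕ} {b : ℝ} (hM : 1 ≤ M) (h : ((M ^ s : ℕ) : ℝ) ≤ Real.exp b) :
    (((1 + K * M ^ s) ^ tm * (J * M ^ s) : ℕ) : ℝ) ≤ Real.exp (tm * (K + b) + (J + b)) := by
  have h1 : (1 : ℝ) ≤ (M ^ s : ℕ) := by exact_mod_cast Nat.one_le_pow _ _ hM
  have h2 : ∀ n : ℕ, (n + 1 : ℝ) * (M ^ s : ℕ) ≤ Real.exp (n + b) := fun n => by
    rw [Real.exp_add]
    exact mul_le_mul (Real.add_one_le_exp n) h (by linarith) (Real.exp_pos _).le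
  rw [Real.exp_add, Real.exp_nat_mul, Nat.cast_mul, Nat.cast_pow, Nat.cast_add, Nat.cast_mul,
    Nat.cast_mul, Nat.cast_one]
  refine mul_le_mul (pow_le_pow_left₀ (by positivity) (le_trans ?_ (h2 K)) _) (le_trans ?_ (h2 J))
    (by positivity) (by positivity) <;> nlinarith

/-- The constant in the number of rounds. -/
noncomputable def c1 (a : Par) : ℝ := 2 * a.C * (2 + 24 * a.K) / a.θ + 1

/-- The constant in the count. -/
noncomputable def c2 (a : Par) : ℝ := (c1 a + 1) * (a.K + a.J + 144 * a.C * a.K)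

theorem main (a : Par) {ζ w : ℝ} {q : ℕ} (hq : w ^ (24 * a.K) = q) (h1 : 10 ^ 11 ≤ w)
    (h2 : 2 * (a.J : ℝ) ≤ w) (h3 : 2 ^ a.K ≤ a.ε * w) (h4 : c2 a ≤ ζ * w) :
    ∃ (τ e : ℝ) (tm : ℕ), Qok a q τ e tm ∧
      (((1 + a.K * (q ^ 2 + q + 1 + 1) ^ ⌊2 * τ * (a.C * q)⌋₊) ^ tm
        * (a.J * (q ^ 2 + q + 1 + 1) ^ ⌊2 * τ * (a.C * q)⌋₊) : ℕ) : ℝ) ≤ Real.exp (ζ * q) := by
  have hK : a.K ≠ 0 := by have := a.K_eq; have := a.J_eq; have := a.C_pos; omega
  have hθ := a.θ_pos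
  have hε := a.ε_pos
  have hC : (1 : ℝ) ≤ a.C := by exact_mod_cast a.C_pos
  have w0 : 0 < w := by linarith
  have w1 : 1 ≤ w := by linarith
  have w3 : w ≤ w ^ 3 := le_self_pow₀ w1 (by norm_num)
  obtain ⟨y, hy⟩ : ∃ y, y = w ^ a.K := ⟨_, rfl⟩
  have y1 : w ≤ y := hy ▸ le_self_pow₀ w1 hK
  have y2 : 1 ≤ y := w1.trans y1
  have y3 : y ^ 24 = q := by rw [hy, ← pow_mul, mul_comm, hq]
  have q1 : w ^ 2 ≤ q := hq ▸ pow_le_pow_right₀ w1 (by omega)
  have q2 : (2 : ℝ) ≤ q := by nlinarith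
  have l1 : Real.log q ≤ 24 * a.K * w := by
    rw [← hq, Real.log_pow, Nat.cast_mul, Nat.cast_ofNat]
    exact mul_le_mul_of_nonneg_left (Real.log_le_self w0.le) (by positivity)
  have l2 : Real.log (2 * q) ≤ 1 + 24 * a.K * w := by
    rw [Real.log_mul two_ne_zero (by linarith)]
    linarith [Real.log_two_lt_d9]
  have l3 : 0 ≤ Real.log (2 * q) := Real.log_nonneg (by linarith)
  obtain ⟨x, hx⟩ : ∃ x, x = 2 * a.C * (1 + Real.log (2 * q)) / a.θ := ⟨_, rfl⟩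
  refine ⟨(w ^ 3)⁻¹, y ^ 18, ⌊x⌋₊ + 1, ⟨by positivity, inv_lt_one_of_one_lt₀ (by linarith), ?_,
    by positivity, ?_, ?_, ?_, ?_⟩, ?_⟩
  · have h5 : (w ^ 3)⁻¹ ≤ 1 := inv_le_one_of_one_le₀ (by linarith)
    have h6 : a.J * (w ^ 3)⁻¹ ≤ 1 / 2 := by
      rw [← div_eq_mul_inv, div_le_iff₀ (by positivity)]
      linarith
    have h7 := one_add_mul_le_pow (a := -(w ^ 3)⁻¹) (by linarith) a.J
    rw [← sub_eq_add_neg] at h7
    linarith
  · have : y ^ 18 ≤ y ^ 24 := pow_le_pow_right₀ y2 (by norm_num)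
    linarith
  · exact conc (v := y ^ 12) (by rw [← y3]; ring)
      (h1.trans (y1.trans (le_self_pow₀ y2 (by norm_num)))) (by ring)
  · have h5 : y ≤ y ^ 3 := le_self_pow₀ y2 (by norm_num)
    rw [div_inv_eq_mul, mul_pow, ← pow_mul, mul_comm 3, pow_mul, ← hy, ← y3,
      show 2 ^ a.K * y ^ 3 * y ^ 18 = 2 ^ a.K * y ^ 21 by ring,
      show a.ε * y ^ 24 = a.ε * y ^ 3 * y ^ 21 by ring]
    exact mul_le_mul_of_nonneg_right (h3.trans (mul_le_mul_of_nonneg_left (y1.trans h5) hε.le))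
      (by positivity)
  · have h5 := Nat.lt_floor_add_one x
    rw [hx, div_lt_iff₀ hθ, ← hx] at h5
    push_cast
    nlinarith
  · obtain ⟨z, hz⟩ : ∃ z, z = q / w := ⟨_, rfl⟩
    have z1 : w ≤ z := by rw [hz, le_div_iff₀ w0]; linarith
    have t1 : ((⌊x⌋₊ + 1 : ℕ) : ℝ) ≤ c1 a * w := by
      have h5 : (⌊x⌋₊ : ℝ) ≤ x := Nat.floor_le (by rw [hx]; positivity)
      have h6 : x ≤ 2 * a.C * (2 + 24 * a.K) / a.θ * w := by
        rw [hx, div_mul_eq_mul_div, mul_assoc (2 * a.C : ℝ)]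
        gcongr
        linarith
      rw [c1]
      push_cast
      linarith
    have t2 : (((q ^ 2 + q + 1 + 1) ^ ⌊2 * (w ^ 3)⁻¹ * (a.C * q)⌋₊ : ℕ) : ℝ) ≤
        Real.exp (144 * a.C * a.K * (z / w)) := by
      have h5 : ((q ^ 2 + q + 1 + 1 : ℕ) : ℝ) ≤ Real.exp (72 * a.K * w) := by
        have h6 : (q : ℝ) ^ 3 = Real.exp (3 * Real.log q) := by
          rw [show (3 : ℝ) = (3 : ℕ) by norm_num, Real.exp_nat_mul, Real.exp_log (by linarith)]
        refine le_trans ?_ (h6.le.trans (Real.exp_le_exp.2 (by linarith)))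
        push_cast
        nlinarith
      rw [Nat.cast_pow]
      refine (pow_le_pow_left₀ (by positivity) h5 _).trans ?_
      rw [← Real.exp_nat_mul, Real.exp_le_exp]
      refine (mul_le_mul_of_nonneg_right (Nat.floor_le (by positivity)) (by positivity)).trans
        (le_of_eq ?_)
      rw [hz]
      field_simp
      ring
    refine (count (by omega) t2).trans (Real.exp_le_exp.2 ?_)
    have c0 : 0 ≤ c1 a := by rw [c1]; positivity
    have z2 : 1 ≤ z / w := (one_le_div w0).2 z1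
    have z3 : w * (z / w) = z := mul_div_cancel₀ _ w0.ne'
    have z4 : ∀ n : ℕ, (n : ℝ) ≤ n * (z / w) := fun n => le_mul_of_one_le_right n.cast_nonneg z2
    obtain ⟨b, hb⟩ : ∃ b : ℝ, b = (a.K + a.J + 144 * a.C * a.K) * (z / w) := ⟨_, rfl⟩
    have b0 : 0 ≤ b := by rw [hb]; positivity
    have b1 : a.K + 144 * a.C * a.K * (z / w) ≤ b := by
      have := z4 a.K
      have : (0 : ℝ) ≤ a.J * (z / w) := by positivity
      rw [hb]; linarith
    have b2 : a.J + 144 * a.C * a.K * (z / w) ≤ b := by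
      have := z4 a.J
      have : (0 : ℝ) ≤ a.K * (z / w) := by positivity
      rw [hb]; linarith
    have b3 : (c1 a + 1) * w * b = c2 a * z := by
      rw [hb, c2, ← z3, mul_div_cancel_left₀ _ w0.ne']
      ring
    have b4 : c2 a * z ≤ ζ * q := by
      rw [show ζ * q = ζ * w * z by rw [hz]; field_simp]
      exact mul_le_mul_of_nonneg_right h4 (by linarith)
    have b5 := mul_le_mul t1 b1 (by positivity) (by positivity)
    nlinarith [mul_le_mul_of_nonneg_right w1 b0]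

end ASY

theorem st_ASY : St_ASY := by
  intro a ζ hζ
  have hK : 24 * a.K ≠ 0 := by have := a.K_eq; have := a.J_eq; have := a.C_pos; omega
  obtain ⟨W, hW⟩ : ∃ W : ℝ, W = max (max (10 ^ 11) (2 * (a.J : ℝ)))
    (max (2 ^ a.K / a.ε) (ASY.c2 a / ζ)) := ⟨_, rfl⟩
  refine ⟨⌈W ^ (24 * a.K)⌉₊, fun q hq => ?_⟩
  have h1 := Real.rpow_inv_natCast_pow (x := q) q.cast_nonneg hK
  have h2 := le_of_pow_le_pow_left₀ hK (by positivity) ((Nat.ceil_le.1 hq).trans h1.ge)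
  simp only [hW, max_le_iff, div_le_iff₀' a.ε_pos, div_le_iff₀' hζ] at h2
  exact ASY.main a h1 h2.1.1 h2.1.2 h2.2.1 h2.2.2

end Pool.Agent.Lib.AL
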