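import Pool.Agent.Lib.AL.Blue

/-! Moment bounds for a regular model. -/

namespace Pool.Agent.Lib.AL

open Finset

namespace MOM

lemma Ak_succ (C k : ℕ) : ((k : ℝ) + 1) * Ak C (k + 1) = (8 * C + 1) * Ak C k := by
  unfold Ak
  rw [Nat.factorial_succ]
  have h : (k.factorial : ℝ) ≠ 0 := by positivity
  push_cast
  field_simp
  ring

lemma abs_ind_le {τ : ℝ} (h0 : 0 < τ) (h1 : τ ≤ 1) {k K : ℕ} (hk : k ≤ K) (n : ℕ) :
    |ind τ k n| ≤ (2 / τ) ^ K := by
  have h2 : (1 : ℝ) ≤ 1 / τ := by rw [le_div_iff₀ h0]; linarith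
  have h3 : 1 / τ ≤ 2 / τ := by gcongr; norm_num
  unfold ind
  split_ifs
  · rw [abs_of_nonneg (by positivity), ← one_div_pow]
    exact (pow_le_pow_right₀ h2 hk).trans (pow_le_pow_left₀ (by positivity) h3 K)
  · simp only [abs_zero]; positivity

lemma card_sdiff_le {P : Type} [DecidableEq P] (B B₀ B₁ : Finset P) :
    (B \ B₁).card ≤ (B \ B₀).card + (B₀ \ B₁).card := by
  refine le_trans (card_le_card fun x hx => ?_) (card_union_le _ _)
  rw [mem_union, mem_sdiff, mem_sdiff]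
  rw [mem_sdiff] at hx
  by_cases h : x ∈ B₀
  · exact Or.inr ⟨h, hx.2⟩
  · exact Or.inl ⟨hx.1, h⟩

end MOM

theorem st_MOM (hS : St_SAMP) (hA : St_BETA) (hT : St_STEP) : St_MOM := by
  intro P L _ _ _ _ π a τ e tm B p ok hB hp hs hR
  have hq := q_pos π
  have hq2 := two_le_q π
  have hC : (1 : ℝ) ≤ a.C := by exact_mod_cast a.C_pos
  obtain ⟨-, b0, bm, -, -⟩ := hA P τ ok.τ_pos ok.τ_lt.le
  have key : ∀ k ≤ a.K, ∃ B' ⊆ B,
      ((B \ B').card : ℝ) ≤ k * (2 * (4 * a.C * a.Am + a.ε * a.C) / a.T + a.θ) * π.q ∧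
      ∀ i ≤ k, ∑ l ∈ good π a.C p, beta τ i (B' ∩ π.pts l) ≤ Ak a.C i * (π.q : ℝ) ^ 2 := by
    intro k
    induction k with
    | zero =>
      intro _
      refine ⟨B, Subset.rfl, by simp, fun i hi => ?_⟩
      obtain rfl : i = 0 := by omega
      simp only [b0, sum_const, nsmul_eq_mul, mul_one]
      have h1 : ((good π a.C p).card : ℝ) ≤ Fintype.card L := by
        exact_mod_cast card_le_univ (good π a.C p)
      rw [cardL_real π] at h1
      have h2 : Ak a.C 0 = 2 := by simp [Ak]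
      rw [h2]
      nlinarith
    | succ k ih =>
      intro hk
      obtain ⟨B₀, s0, d0, m0⟩ := ih (by omega)
      have hB0 : (B₀.card : ℝ) ≤ a.C * π.q := by exact_mod_cast (card_le_card s0).trans hB
      obtain ⟨F, hF, hd⟩ := hS P L π τ ((2 / τ) ^ a.K) e (a.C * π.q) (good π a.C p) (ind τ k) B₀
        ok.τ_pos ok.τ_lt.le (pow_pos (div_pos two_pos ok.τ_pos) _) (by positivity) hB0
        (MOM.abs_ind_le ok.τ_pos ok.τ_lt.le (by omega)) ok.e_nonneg ok.e_le ok.conc
      obtain ⟨B₁, s1, d1, m1⟩ := hT P L π a.C k τ a.T a.ε a.θ (Ak a.C k) B B₀ F p ok.τ_pos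
        ok.τ_lt.le a.T_pos a.ε_pos.le hB s0 hp hs (m0 k le_rfl) (fun x => (hd x).trans ok.acc)
        (hR k (by omega) F hF)
      refine ⟨B₁, s1.trans s0, ?_, fun i hi => ?_⟩
      · have h1 : ((B \ B₁).card : ℝ) ≤ (B \ B₀).card + (B₀ \ B₁).card := by
          exact_mod_cast MOM.card_sdiff_le B B₀ B₁
        have h2 : (2 * (4 * a.C * Ak a.C k + a.ε * a.C) / a.T + a.θ) * π.q
            ≤ (2 * (4 * a.C * a.Am + a.ε * a.C) / a.T + a.θ) * π.q := by
          have := a.Am_ge k (by omega)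
          have := a.T_pos
          gcongr
        push_cast
        linarith
      · rcases Nat.lt_or_ge i (k + 1) with h | h
        · refine le_trans (sum_le_sum fun l _ => bm i _ _ ?_) (m0 i (by omega))
          exact inter_subset_inter_right s1
        · obtain rfl : i = k + 1 := by omega
          have hk1 : (0 : ℝ) < (k : ℝ) + 1 := by positivity
          refine le_of_mul_le_mul_left (m1.trans ?_) hk1
          rw [← mul_assoc, MOM.Ak_succ]
          have := a.err k (by omega)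
          have h3 : (0 : ℝ) ≤ (π.q : ℝ) ^ 2 := by positivity
          exact mul_le_mul_of_nonneg_right (by linarith) h3
  obtain ⟨B', s, d, m⟩ := key a.K le_rfl
  exact ⟨B', s, d.trans (mul_le_mul_of_nonneg_right a.drop hq.le), m⟩

end Pool.Agent.Lib.AL
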