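import Pool.Agent.Lib.AL.Defs

/-! Blocking sets in random subsets of projective planes: statements of the steps. -/

namespace Pool.Agent.Lib.AL

open Finset

/-- Hoeffding bound for functions of pairwise disjoint traces. -/
def St_HOEF : Prop :=
  ∀ (P ι : Type) [Fintype P] [DecidableEq P] (τ V e n : ℝ) (s : Finset ι) (A : ι → Finset P)
    (f : ι → Finset P → ℝ), 0 ≤ τ → τ ≤ 1 → 0 < V → 0 < n → (s.card : ℝ) ≤ n → 0 ≤ e → e ≤ 4 * n →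
    (∀ i ∈ s, Dep (A i) (f i)) → (∀ i ∈ s, ∀ i' ∈ s, i ≠ i' → Disjoint (A i) (A i')) →
    (∀ i ∈ s, ∀ W, |f i W| ≤ V) →
    Ex τ (fun W => if V * e < |∑ i ∈ s, f i W - ∑ i ∈ s, Ex τ (f i)| then 1 else 0)
      ≤ 2 * Real.exp (-(e ^ 2 / (16 * n)))

/-- A small sample that estimates the statistic at all points. -/
def St_SAMP : Prop :=
  ∀ (P L : Type) [Fintype P] [Fintype L] [DecidableEq P] [DecidableEq L] (π : Pl P L)
    (τ V e m : ℝ) (G : Finset L) (f : ℕ → ℝ) (B : Finset P), 0 < τ → τ ≤ 1 → 0 < V → 0 < m →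
    (B.card : ℝ) ≤ m → (∀ n, |f n| ≤ V) → 0 ≤ e → e ≤ 4 * (π.q + 1) →
    4 * ((π.q : ℝ) ^ 2 + π.q + 1) * Real.exp (-(e ^ 2 / (16 * (π.q + 1)))) < 1 →
    ∃ F : Finset P, (F.card : ℝ) ≤ 2 * τ * m ∧
      ∀ x, |stat π G f F x - mean π τ G f B x| ≤ V * e

/-- Binomial law of the trace. -/
def St_BIN : Prop :=
  ∀ (P : Type) [Fintype P] [DecidableEq P] (τ : ℝ) (S : Finset P) (k : ℕ),
    Ex τ (fun W => if (W ∩ S).card = k then 1 else 0)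
      = (S.card.choose k : ℝ) * τ ^ k * (1 - τ) ^ (S.card - k)

/-- Properties of `beta`. -/
def St_BETA : Prop :=
  ∀ (P : Type) [Fintype P] [DecidableEq P] (τ : ℝ), 0 < τ → τ ≤ 1 →
    (∀ (k : ℕ) (S : Finset P), 0 ≤ beta τ k S) ∧
    (∀ S : Finset P, beta τ 0 S = 1) ∧
    (∀ (k : ℕ) (S S' : Finset P), S ⊆ S' → beta τ k S ≤ beta τ k S') ∧
    (∀ (k : ℕ) (S : Finset P),
      ((k : ℝ) + 1) * beta τ (k + 1) S ≤ ∑ x ∈ S, beta τ k (S.erase x)) ∧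
    (∀ (k : ℕ) (S : Finset P), (S.card.choose k : ℝ) * (1 - τ) ^ S.card ≤ beta τ k S)

/-- Two binomial coefficient facts. -/
def St_CH : Prop :=
  (∀ n D : ℕ, n.choose D ^ 2 ≤ 8 ^ D * n.choose D + 12 ^ D * n.choose (2 * D)) ∧
  (∀ n j r : ℕ, ∑ k ∈ Icc j (j + 2 * r), (-1 : ℝ) ^ (k - j) * (k.choose j : ℝ) * (n.choose k : ℝ)
      = if n = j then 1 else (n.choose j : ℝ) * ((n - j - 1).choose (2 * r) : ℝ))

/-- Properties of the truncated inclusion-exclusion weights. -/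
def St_POLY : Prop :=
  ∀ (P : Type) [Fintype P] [DecidableEq P] (τ : ℝ) (j r : ℕ), 0 < τ → τ < 1 →
    (∀ k, |fj τ j (j + 2 * r) k| ≤ (2 / τ) ^ (j + 2 * r)) ∧
    ∀ S : Finset P, 0 ≤ gj τ j (j + 2 * r) S ∧
      (S.card = j → gj τ j (j + 2 * r) S = (1 - τ) ^ j) ∧
      gj τ j (j + 2 * r) S
        ≤ (if S.card = j then 1 else 0) + 2 ^ (j + 2 * r) * beta τ (j + 2 * r) S ∧
      gj τ j (j + 2 * r) S ^ 2
        ≤ (if S.card = j then 1 else 0) + 32 ^ (j + 2 * r) * beta τ (j + 2 * r) S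
          + 48 ^ (j + 2 * r) * beta τ (2 * (j + 2 * r)) S

/-- Mixing lemma of the plane. -/
def St_MIX : Prop :=
  ∀ (P L : Type) [Fintype P] [Fintype L] [DecidableEq P] [DecidableEq L] (π : Pl P L)
    (G : Finset L) (g : L → ℝ) (Z : Finset P) (a t : ℝ), 0 ≤ t → 0 ≤ a →
    ∑ l ∈ G, g l ≤ a * (π.q : ℝ) ^ 2 →
    (∀ x ∈ Z, a * π.q + t ≤ ∑ l ∈ thru π G x, g l) →
    (Z.card : ℝ) * t ^ 2 ≤ π.q * ∑ l ∈ G, g l ^ 2

/-- Most lines are good. -/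
def St_GOOD : Prop :=
  ∀ (P L : Type) [Fintype P] [Fintype L] [DecidableEq P] [DecidableEq L] (π : Pl P L)
    (C : ℕ) (p : P → ℝ), 1 ≤ C → (∀ x, 0 ≤ p x) → ∑ x, p x = C * π.q →
    3 * Fintype.card L ≤ 4 * (good π C p).card

/-- One multiplicative update. -/
def St_MW : Prop :=
  ∀ (P : Type) [Fintype P] [DecidableEq P] (m δ : ℝ) (p h : P → ℝ) (B : Finset P), 0 < m →
    (∀ x, 0 < p x) → ∑ x, p x = m → (B.card : ℝ) ≤ m → (∀ x, 0 ≤ h x) → (∀ x, h x ≤ 1) →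
    (∀ x, 0 < mw m p h x) ∧ ∑ x, mw m p h x = m ∧
      (2 * ∑ x, p x * h x + δ < ∑ x ∈ B, h x →
        ∑ x ∈ B, Real.log (p x) + δ / 2 ≤ ∑ x ∈ B, Real.log (mw m p h x))

/-- A regular model is reached. -/
def St_ITER : Prop :=
  ∀ (P L : Type) [Fintype P] [Fintype L] [DecidableEq P] [DecidableEq L] (π : Pl P L)
    (C K tm : ℕ) (τ T s θ : ℝ) (B : Finset P), 1 ≤ C → 0 < τ → 0 < T → 0 < θ →
    B.card ≤ C * π.q → (C : ℝ) * π.q * (1 + Real.log (2 * π.q)) < tm * (θ * π.q / 2) →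
    ∃ p ∈ models π C K τ T s tm, (∀ x, 0 < p x) ∧ ∑ x, p x = C * π.q ∧ Reg π C K τ T s θ B p

/-- Counting of samples and models. -/
def St_CARD : Prop :=
  ∀ (P L : Type) [Fintype P] [Fintype L] [DecidableEq P] [DecidableEq L] (π : Pl P L)
    (C K t : ℕ) (τ T s : ℝ),
    (small P s).card ≤ (Fintype.card P + 1) ^ ⌊s⌋₊ ∧
    (models π C K τ T s t).card ≤ (1 + K * (Fintype.card P + 1) ^ ⌊s⌋₊) ^ t

/-- One step of the moment recursion. -/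
def St_STEP : Prop :=
  ∀ (P L : Type) [Fintype P] [Fintype L] [DecidableEq P] [DecidableEq L] (π : Pl P L)
    (C k : ℕ) (τ T ε θ M : ℝ) (B B₀ F : Finset P) (p : P → ℝ), 0 < τ → τ ≤ 1 → 0 < T → 0 ≤ ε →
    B.card ≤ C * π.q → B₀ ⊆ B → (∀ x, 0 < p x) → ∑ x, p x = C * π.q →
    ∑ l ∈ good π C p, beta τ k (B₀ ∩ π.pts l) ≤ M * (π.q : ℝ) ^ 2 →
    (∀ x, |stat π (good π C p) (ind τ k) F x - mean π τ (good π C p) (ind τ k) B₀ x| ≤ ε * π.q) →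
    ∑ x ∈ B, hfun π C τ T p k F x ≤ 2 * ∑ x, p x * hfun π C τ T p k F x + θ * π.q →
    ∃ B₁ ⊆ B₀, ((B₀ \ B₁).card : ℝ) ≤ (2 * (4 * C * M + ε * C) / T + θ) * π.q ∧
      ((k : ℝ) + 1) * ∑ l ∈ good π C p, beta τ (k + 1) (B₁ ∩ π.pts l)
        ≤ (8 * C * M + (3 * ε * C + T * θ)) * (π.q : ℝ) ^ 2

/-- Moment bounds for a regular model. -/
def St_MOM : Prop :=
  ∀ (P L : Type) [Fintype P] [Fintype L] [DecidableEq P] [DecidableEq L] (π : Pl P L)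
    (a : Par) (τ e : ℝ) (tm : ℕ) (B : Finset P) (p : P → ℝ), Qok a π.q τ e tm →
    B.card ≤ a.C * π.q → (∀ x, 0 < p x) → ∑ x, p x = a.C * π.q →
    Reg π a.C a.K τ a.T (2 * τ * (a.C * π.q)) a.θ B p →
    ∃ B' ⊆ B, ((B \ B').card : ℝ) ≤ a.vt * π.q ∧
      ∀ k ≤ a.K, ∑ l ∈ good π a.C p, beta τ k (B' ∩ π.pts l) ≤ Ak a.C k * (π.q : ℝ) ^ 2

/-- Choice of the level. -/
def St_LEV : Prop :=
  ∀ (P L : Type) [Fintype P] [Fintype L] [DecidableEq P] [DecidableEq L] (π : Pl P L)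
    (a : Par) (G : Finset L) (B B' : Finset P), Blocking π B → B.card ≤ a.C * π.q → B' ⊆ B →
    ((B \ B').card : ℝ) ≤ a.vt * π.q → 3 * Fintype.card L ≤ 4 * G.card →
    ∃ j < a.J, (lev π G B' j : ℝ) ≤ a.η j * (π.q : ℝ) ^ 2 ∧
      a.η (j + 1) * (π.q : ℝ) ^ 2 < (lev π G B' (j + 1) : ℝ)

/-- Few points of the core lie outside the set. -/
def St_OUT : Prop :=
  ∀ (P L : Type) [Fintype P] [Fintype L] [DecidableEq P] [DecidableEq L] (π : Pl P L)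
    (a : Par) (τ : ℝ) (G : Finset L) (B' F : Finset P) (j : ℕ), 0 < τ → τ < 1 → j < a.J →
    (∀ k ≤ a.K, ∑ l ∈ G, beta τ k (B' ∩ π.pts l) ≤ Ak a.C k * (π.q : ℝ) ^ 2) →
    (lev π G B' j : ℝ) ≤ a.η j * (π.q : ℝ) ^ 2 →
    (∀ x, |stat π G (fj τ j (j + 2 * a.r)) F x - mean π τ G (fj τ j (j + 2 * a.r)) B' x|
      ≤ a.ε * π.q) →
    ((core π τ G j (j + 2 * a.r) (a.η (j + 1) / (8 * a.C)) F \ B').card : ℝ)
      ≤ a.κ * (a.η (j + 1) / 4 * π.q)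

/-- The core is large. -/
def St_BIG : Prop :=
  ∀ (P L : Type) [Fintype P] [Fintype L] [DecidableEq P] [DecidableEq L] (π : Pl P L)
    (a : Par) (τ : ℝ) (G : Finset L) (B' F : Finset P) (j : ℕ), 0 < τ → τ < 1 → j < a.J →
    1 / 2 ≤ (1 - τ) ^ a.J → B'.card ≤ a.C * π.q →
    a.η (j + 1) * (π.q : ℝ) ^ 2 < (lev π G B' (j + 1) : ℝ) →
    (∀ x, |stat π G (fj τ j (j + 2 * a.r)) F x - mean π τ G (fj τ j (j + 2 * a.r)) B' x|
      ≤ a.ε * π.q) →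
    a.η (j + 1) / 4 * π.q
      ≤ ((core π τ G j (j + 2 * a.r) (a.η (j + 1) / (8 * a.C)) F).card : ℝ)

/-- Existence of the constants. -/
def St_PAR : Prop :=
  ∀ (C : ℕ) (κ : ℝ), 1 ≤ C → 0 < κ → κ ≤ 1 → ∃ a : Par, a.C = C ∧ a.κ = κ

/-- Choice of the parameters for large order. -/
def St_ASY : Prop :=
  ∀ (a : Par) (ζ : ℝ), 0 < ζ → ∃ q₀ : ℕ, ∀ q : ℕ, q₀ ≤ q → ∃ (τ e : ℝ) (tm : ℕ), Qok a q τ e tm ∧
    (((1 + a.K * (q ^ 2 + q + 1 + 1) ^ ⌊2 * τ * (a.C * q)⌋₊) ^ tm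
        * (a.J * (q ^ 2 + q + 1 + 1) ^ ⌊2 * τ * (a.C * q)⌋₊) : ℕ) : ℝ) ≤ Real.exp (ζ * q)

/-- The core theorem. -/
def St_CORE : Prop :=
  ∀ (C : ℕ) (κ : ℝ), 0 < κ → ∃ γ : ℝ, 0 < γ ∧ ∀ ζ : ℝ, 0 < ζ → ∃ q₀ : ℕ,
    ∀ (P L : Type) [Fintype P] [Fintype L] [DecidableEq P] [DecidableEq L] (π : Pl P L),
      q₀ ≤ π.q → ∃ YY : Finset (Finset P), (YY.card : ℝ) ≤ Real.exp (ζ * π.q) ∧
        ∀ B : Finset P, Blocking π B → B.card ≤ C * π.q →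
          ∃ Y ∈ YY, γ * π.q ≤ (Y.card : ℝ) ∧ ((Y \ B).card : ℝ) ≤ κ * Y.card

/-- The random subset theorem in counting form. -/
def St_RAND : Prop :=
  ∀ (ρ : ℝ) (C : ℕ), 0 ≤ ρ → ρ < 1 → ∃ c : ℝ, 0 < c ∧ ∃ q₀ : ℕ,
    ∀ (P L : Type) [Fintype P] [Fintype L] [DecidableEq P] [DecidableEq L] (π : Pl P L),
      q₀ ≤ π.q → ∀ bad : Finset (Finset P),
        (∀ R ∈ bad, ∃ B ⊆ R, Blocking π B ∧ B.card ≤ C * π.q) →
        ∑ R ∈ bad, wt ρ R ≤ Real.exp (-(c * π.q))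

/-- A projective plane of Mathlib gives a plane in counting form. -/
def St_BRIDGE : Prop :=
  ∀ (P L : Type) [Membership P L] [Fintype P] [Fintype L] [DecidableEq P] [DecidableEq L]
    [Configuration.ProjectivePlane P L],
    ∃ π : Pl P L, π.q = Configuration.ProjectivePlane.order P L ∧ ∀ l x, x ∈ π.pts l ↔ x ∈ l

/-- Planes of arbitrarily large order exist. -/
def St_EXIST : Prop :=
  ∀ q₀ : ℕ, ∃ (P L : Type) (_ : Fintype P) (_ : Fintype L) (_ : DecidableEq P) (_ : DecidableEq L)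
    (π : Pl P L), q₀ ≤ π.q

/-- A subset that keeps most points of every line and has no small blocking set. -/
def St_THIN : Prop :=
  ∀ (c : ℝ) (C : ℕ), c < 1 → ∃ q₀ : ℕ,
    ∀ (P L : Type) [Fintype P] [Fintype L] [DecidableEq P] [DecidableEq L] (π : Pl P L),
      q₀ ≤ π.q → ∃ R : Finset P, (∀ l, c * (π.q + 1) < ((R ∩ π.pts l).card : ℝ)) ∧
        ∀ B ⊆ R, Blocking π B → C * π.q < B.card

/-- Pairwise balanced designs without small or bounded transversals. -/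
def St_PBD : Prop :=
  ∀ (c : ℝ) (C n₀ : ℕ), c < 1 → ∃ n : ℕ, n₀ ≤ n ∧ ∃ F : Finset (Finset (Fin n)),
    (∀ A ∈ F, c * Real.sqrt n < (A.card : ℝ)) ∧
    (∀ x y : Fin n, x ≠ y → ∃! A, A ∈ F ∧ x ∈ A ∧ y ∈ A) ∧
    ∀ S : Finset (Fin n), (∀ A ∈ F, 1 ≤ (A ∩ S).card) →
      C * Real.sqrt n < (S.card : ℝ) ∧ ∃ A ∈ F, C < (A ∩ S).card

end Pool.Agent.Lib.AL
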