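import Mathlib

/-! Blocking sets in random subsets of projective planes: definitions and basic API. -/

set_option linter.unusedSectionVars false

namespace Pool.Agent.Lib.AL

open Finset

/-- A finite projective plane of order `q`, in counting form. -/
structure Pl (P L : Type) [Fintype P] [Fintype L] [DecidableEq P] [DecidableEq L] where
  pts : L → Finset P
  q : ℕ
  two_le : 2 ≤ q
  card_pts : ∀ l, (pts l).card = q + 1
  card_thru : ∀ x, (univ.filter fun l => x ∈ pts l).card = q + 1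
  join : ∀ x y, x ≠ y → (univ.filter fun l => x ∈ pts l ∧ y ∈ pts l).card = 1
  meet : ∀ l l', l ≠ l' → (pts l ∩ pts l').card = 1
  cardP : Fintype.card P = q ^ 2 + q + 1
  cardL : Fintype.card L = q ^ 2 + q + 1

section Prob

variable {P : Type} [Fintype P] [DecidableEq P]

/-- Weight of `W` for a random subset of density `τ`. -/
noncomputable def wt (τ : ℝ) (W : Finset P) : ℝ :=
  τ ^ W.card * (1 - τ) ^ (Fintype.card P - W.card)

/-- Expectation over a random subset of density `τ`. -/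
noncomputable def Ex (τ : ℝ) (f : Finset P → ℝ) : ℝ := ∑ W : Finset P, wt τ W * f W

/-- `f` depends only on the trace on `A`. -/
def Dep (A : Finset P) (f : Finset P → ℝ) : Prop := ∀ W, f W = f (W ∩ A)

/-- Indicator of `k ≤ n`, divided by `τ ^ k`. -/
noncomputable def ind (τ : ℝ) (k : ℕ) : ℕ → ℝ := fun n => if k ≤ n then 1 / τ ^ k else 0

/-- Normalised probability that the sample has at least `k` points in `S`. -/
noncomputable def beta (τ : ℝ) (k : ℕ) (S : Finset P) : ℝ :=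
  Ex τ fun W => ind τ k (W ∩ S).card

/-- Truncated inclusion-exclusion weights. -/
noncomputable def fj (τ : ℝ) (j D : ℕ) : ℕ → ℝ := fun k =>
  if j ≤ k ∧ k ≤ D then (-1) ^ (k - j) * (k.choose j : ℝ) * ((1 - τ) / τ) ^ k else 0

/-- Mean of the truncated inclusion-exclusion weights. -/
noncomputable def gj (τ : ℝ) (j D : ℕ) (S : Finset P) : ℝ :=
  Ex τ fun W => fj τ j D (W ∩ S).card

/-- Sets with at most `s` points. -/
noncomputable def small (P : Type) [Fintype P] [DecidableEq P] (s : ℝ) : Finset (Finset P) :=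
  open Classical in univ.filter fun F => (F.card : ℝ) ≤ s

lemma mem_small {s : ℝ} {F : Finset P} : F ∈ small P s ↔ (F.card : ℝ) ≤ s := by
  simp [small]

lemma wt_eq_prod (τ : ℝ) (W : Finset P) :
    wt τ W = ∏ x, if x ∈ W then τ else 1 - τ := by
  rw [Finset.prod_ite, Finset.prod_const, Finset.prod_const, wt]
  have h1 : (univ.filter fun x => x ∈ W) = W := by ext; simp
  have h2 : (univ.filter fun x => ¬ x ∈ W) = Wᶜ := by ext; simp
  rw [h1, h2, Finset.card_compl]

lemma wt_nonneg {τ : ℝ} (h0 : 0 ≤ τ) (h1 : τ ≤ 1) (W : Finset P) : 0 ≤ wt τ W :=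
  mul_nonneg (pow_nonneg h0 _) (pow_nonneg (by linarith) _)

lemma sum_wt (τ : ℝ) : ∑ W : Finset P, wt τ W = 1 := by
  have h := Finset.sum_pow_mul_eq_add_pow τ (1 - τ) (univ : Finset P)
  rw [Finset.powerset_univ, Finset.card_univ] at h
  simpa [wt] using h

lemma Ex_const (τ c : ℝ) : Ex τ (fun _ : Finset P => c) = c := by
  rw [Ex, ← Finset.sum_mul, sum_wt, one_mul]

lemma Ex_add (τ : ℝ) (f g : Finset P → ℝ) :
    Ex τ (fun W => f W + g W) = Ex τ f + Ex τ g := by
  simp only [Ex, mul_add, Finset.sum_add_distrib]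

lemma Ex_sub (τ : ℝ) (f g : Finset P → ℝ) :
    Ex τ (fun W => f W - g W) = Ex τ f - Ex τ g := by
  simp only [Ex, mul_sub, Finset.sum_sub_distrib]

lemma Ex_const_mul (τ c : ℝ) (f : Finset P → ℝ) :
    Ex τ (fun W => c * f W) = c * Ex τ f := by
  simp only [Ex, Finset.mul_sum]
  exact Finset.sum_congr rfl fun W _ => by ring

lemma Ex_sum {ι : Type*} (τ : ℝ) (s : Finset ι) (f : ι → Finset P → ℝ) :
    Ex τ (fun W => ∑ i ∈ s, f i W) = ∑ i ∈ s, Ex τ (f i) := by
  simp only [Ex, Finset.mul_sum]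
  exact Finset.sum_comm

lemma Ex_mono {τ : ℝ} (h0 : 0 ≤ τ) (h1 : τ ≤ 1) {f g : Finset P → ℝ} (h : ∀ W, f W ≤ g W) :
    Ex τ f ≤ Ex τ g :=
  Finset.sum_le_sum fun W _ => mul_le_mul_of_nonneg_left (h W) (wt_nonneg h0 h1 W)

lemma Ex_nonneg {τ : ℝ} (h0 : 0 ≤ τ) (h1 : τ ≤ 1) {f : Finset P → ℝ} (h : ∀ W, 0 ≤ f W) :
    0 ≤ Ex τ f := by
  have := Ex_mono h0 h1 (f := fun _ => 0) h
  rwa [Ex_const] at this

lemma Ex_le_const {τ c : ℝ} (h0 : 0 ≤ τ) (h1 : τ ≤ 1) {f : Finset P → ℝ} (h : ∀ W, f W ≤ c) :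
    Ex τ f ≤ c := by
  have := Ex_mono h0 h1 (g := fun _ => c) h
  rwa [Ex_const] at this

lemma abs_Ex_le {τ c : ℝ} (h0 : 0 ≤ τ) (h1 : τ ≤ 1) {f : Finset P → ℝ} (h : ∀ W, |f W| ≤ c) :
    |Ex τ f| ≤ c := by
  rw [abs_le]
  constructor
  · have := Ex_mono h0 h1 (f := fun _ => -c) (g := f) fun W => (abs_le.1 (h W)).1
    rwa [Ex_const] at this
  · exact Ex_le_const h0 h1 fun W => (abs_le.1 (h W)).2

/-- If the expectation of `f` is below `c`, some value is below `c`. -/
lemma exists_lt_of_Ex_lt {τ c : ℝ} (h0 : 0 ≤ τ) (h1 : τ ≤ 1) {f : Finset P → ℝ}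
    (h : Ex τ f < c) : ∃ W, f W < c := by
  by_contra hc
  push Not at hc
  have := Ex_mono h0 h1 (f := fun _ => c) (g := f) hc
  rw [Ex_const] at this
  linarith

/-- The swap on pairs used for independence. -/
def swp (A : Finset P) (u : Finset P × Finset P) : Finset P × Finset P :=
  ((u.1 ∩ A) ∪ (u.2 \ A), (u.2 ∩ A) ∪ (u.1 \ A))

lemma swp_swp (A : Finset P) (u : Finset P × Finset P) : swp A (swp A u) = u := by
  ext x <;> by_cases hx : x ∈ A <;> simp [swp, hx]

lemma wt_swp (τ : ℝ) (A : Finset P) (u : Finset P × Finset P) :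
    wt τ (swp A u).1 * wt τ (swp A u).2 = wt τ u.1 * wt τ u.2 := by
  simp only [wt_eq_prod, ← Finset.prod_mul_distrib]
  refine Finset.prod_congr rfl fun x _ => ?_
  by_cases hx : x ∈ A <;> simp [swp, hx, mul_comm]

/-- Independence of functions of disjoint traces. -/
lemma Ex_mul_of_disj (τ : ℝ) {A A' : Finset P} {f g : Finset P → ℝ} (hf : Dep A f)
    (hg : Dep A' g) (hd : Disjoint A A') :
    Ex τ (fun W => f W * g W) = Ex τ f * Ex τ g := by
  have e1 : Ex τ f * Ex τ g
      = ∑ u : Finset P × Finset P, wt τ u.1 * wt τ u.2 * (f u.1 * g u.2) := by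
    rw [Ex, Ex, Finset.sum_mul_sum, ← Finset.sum_product', Finset.univ_product_univ]
    exact Finset.sum_congr rfl fun u _ => by ring
  have e2 : Ex τ (fun W => f W * g W)
      = ∑ u : Finset P × Finset P, wt τ u.1 * wt τ u.2 * (f u.1 * g u.1) := by
    have : Ex τ (fun W => f W * g W) = Ex τ (fun W => f W * g W) * ∑ W : Finset P, wt τ W := by
      rw [sum_wt, mul_one]
    rw [this, Ex, Finset.sum_mul_sum, ← Finset.sum_product', Finset.univ_product_univ]
    exact Finset.sum_congr rfl fun u _ => by ring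
  rw [e1, e2]
  let σ : Finset P × Finset P ≃ Finset P × Finset P := ⟨swp A, swp A, swp_swp A, swp_swp A⟩
  rw [← Equiv.sum_comp σ]
  refine Finset.sum_congr rfl fun u _ => ?_
  change wt τ (swp A u).1 * wt τ (swp A u).2 * (f (swp A u).1 * g (swp A u).1) = _
  rw [wt_swp]
  have a1 : f (swp A u).1 = f u.1 := by
    rw [hf, hf u.1]
    congr 1
    ext x; by_cases hx : x ∈ A <;> simp [swp, hx]
  have a2 : g (swp A u).1 = g u.2 := by
    rw [hg, hg u.2]
    congr 1
    ext x
    by_cases hx : x ∈ A'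
    · have : x ∉ A := fun h => Finset.disjoint_left.1 hd h hx
      simp [swp, hx, this]
    · simp [hx]
  rw [a1, a2]

lemma Dep.mono {A A' : Finset P} {f : Finset P → ℝ} (hf : Dep A f) (h : A ⊆ A') : Dep A' f := by
  intro W
  rw [hf W, hf (W ∩ A'), Finset.inter_assoc, Finset.inter_eq_right.2 h]

lemma dep_inter (A : Finset P) (φ : Finset P → ℝ) : Dep A fun W => φ (W ∩ A) := by
  intro W
  simp only [Finset.inter_assoc, Finset.inter_self]

/-- Independence for a finite family of functions of pairwise disjoint traces. -/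
lemma Ex_prod {ι : Type*} (τ : ℝ) (s : Finset ι) (A : ι → Finset P) (f : ι → Finset P → ℝ)
    (hf : ∀ i ∈ s, Dep (A i) (f i))
    (hd : ∀ i ∈ s, ∀ i' ∈ s, i ≠ i' → Disjoint (A i) (A i')) :
    Ex τ (fun W => ∏ i ∈ s, f i W) = ∏ i ∈ s, Ex τ (f i) := by
  classical
  induction s using Finset.induction_on with
  | empty => simp [Ex_const]
  | insert a s ha ih =>
    simp only [Finset.prod_insert ha]
    have h1 : Dep (s.biUnion A) fun W => ∏ i ∈ s, f i W := by
      intro W
      refine Finset.prod_congr rfl fun i hi => ?_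
      exact (hf i (Finset.mem_insert_of_mem hi)).mono (Finset.subset_biUnion_of_mem A hi) W
    have h2 : Disjoint (A a) (s.biUnion A) := by
      rw [Finset.disjoint_biUnion_right]
      intro i hi
      exact hd a (Finset.mem_insert_self _ _) i (Finset.mem_insert_of_mem hi)
        (fun h => ha (h ▸ hi))
    rw [Ex_mul_of_disj τ (hf a (Finset.mem_insert_self _ _)) h1 h2,
      ih (fun i hi => hf i (Finset.mem_insert_of_mem hi))
        (fun i hi i' hi' => hd i (Finset.mem_insert_of_mem hi) i' (Finset.mem_insert_of_mem hi'))]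

/-- One-point law. -/
lemma Ex_mem (τ a b : ℝ) (x : P) :
    Ex τ (fun W => if x ∈ W then a else b) = τ * a + (1 - τ) * b := by
  have h := Finset.prod_add (fun y : P => if y = x then τ * a else τ)
    (fun y : P => if y = x then (1 - τ) * b else 1 - τ) univ
  have h1 : ∏ y : P, ((if y = x then τ * a else τ) + if y = x then (1 - τ) * b else 1 - τ)
      = τ * a + (1 - τ) * b := by
    rw [Finset.prod_eq_single x]
    · simp
    · intro y _ hy; simp [hy]
    · simp
  rw [h1, Finset.powerset_univ] at h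
  rw [h, Ex]
  refine Finset.sum_congr rfl fun W _ => ?_
  rw [wt_eq_prod, ← Finset.prod_mul_prod_compl W, Finset.compl_eq_univ_sdiff]
  have e1 : ∏ y ∈ W, (if y ∈ W then τ else 1 - τ) = ∏ y ∈ W, τ :=
    Finset.prod_congr rfl fun y hy => by simp [hy]
  have e2 : ∏ y ∈ univ \ W, (if y ∈ W then τ else 1 - τ) = ∏ y ∈ univ \ W, (1 - τ) :=
    Finset.prod_congr rfl fun y hy => by simp [(Finset.mem_sdiff.1 hy).2]
  rw [e1, e2]
  by_cases hx : x ∈ W
  · have e3 : ∏ y ∈ W, (if y = x then τ * a else τ) = (∏ y ∈ W, τ) * a := by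
      rw [← Finset.mul_prod_erase W _ hx, ← Finset.mul_prod_erase W (fun _ => τ) hx]
      have : ∏ y ∈ W.erase x, (if y = x then τ * a else τ) = ∏ y ∈ W.erase x, τ :=
        Finset.prod_congr rfl fun y hy => by simp [Finset.ne_of_mem_erase hy]
      rw [this]; simp; ring
    have e4 : ∏ y ∈ univ \ W, (if y = x then (1 - τ) * b else 1 - τ)
        = ∏ y ∈ univ \ W, (1 - τ) :=
      Finset.prod_congr rfl fun y hy => by
        have : y ≠ x := fun h => (Finset.mem_sdiff.1 hy).2 (h ▸ hx)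
        simp [this]
    rw [e3, e4, if_pos hx]; ring
  · have hx' : x ∈ univ \ W := by simp [hx]
    have e3 : ∏ y ∈ univ \ W, (if y = x then (1 - τ) * b else 1 - τ)
        = (∏ y ∈ univ \ W, (1 - τ)) * b := by
      rw [← Finset.mul_prod_erase _ _ hx', ← Finset.mul_prod_erase _ (fun _ => 1 - τ) hx']
      have : ∏ y ∈ (univ \ W).erase x, (if y = x then (1 - τ) * b else 1 - τ)
          = ∏ y ∈ (univ \ W).erase x, (1 - τ) :=
        Finset.prod_congr rfl fun y hy => by simp [Finset.ne_of_mem_erase hy]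
      rw [this]; simp; ring
    have e4 : ∏ y ∈ W, (if y = x then τ * a else τ) = ∏ y ∈ W, τ :=
      Finset.prod_congr rfl fun y hy => by
        have : y ≠ x := fun h => hx (h ▸ hy)
        simp [this]
    rw [e3, e4, if_neg hx]; ring

/-- Product law: a product of one-point factors over `S`. -/
lemma Ex_prod_mem (τ a b : ℝ) (S : Finset P) :
    Ex τ (fun W => ∏ x ∈ S, if x ∈ W then a else b) = (τ * a + (1 - τ) * b) ^ S.card := by
  rw [Ex_prod τ S (fun x => {x}) (fun x W => if x ∈ W then a else b)]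
  · simp only [Ex_mem, Finset.prod_const]
  · intro x _ W; simp
  · intro x _ y _ h; simpa using h

end Prob

section Plane

variable {P L : Type} [Fintype P] [Fintype L] [DecidableEq P] [DecidableEq L]

/-- `B` meets every line. -/
def Blocking (π : Pl P L) (B : Finset P) : Prop := ∀ l, ∃ x ∈ B, x ∈ π.pts l

/-- Lines of `G` through `x`. -/
def thru (π : Pl P L) (G : Finset L) (x : P) : Finset L := G.filter fun l => x ∈ π.pts l

/-- Sample statistic at `x`. -/
noncomputable def stat (π : Pl P L) (G : Finset L) (f : ℕ → ℝ) (F : Finset P) (x : P) : ℝ :=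
  ∑ l ∈ thru π G x, f (F ∩ (π.pts l).erase x).card

/-- Mean of the sample statistic when `B` is sampled with density `τ`. -/
noncomputable def mean (π : Pl P L) (τ : ℝ) (G : Finset L) (f : ℕ → ℝ) (B : Finset P) (x : P) : ℝ :=
  ∑ l ∈ thru π G x, Ex τ fun W => f (W ∩ (B ∩ (π.pts l).erase x)).card

/-- Lines of mass at most `4 C`. -/
noncomputable def good (π : Pl P L) (C : ℕ) (p : P → ℝ) : Finset L :=
  open Classical in univ.filter fun l => ∑ x ∈ π.pts l, p x ≤ 4 * C

/-- Test function. -/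
noncomputable def hfun (π : Pl P L) (C : ℕ) (τ T : ℝ) (p : P → ℝ) (k : ℕ) (F : Finset P)
    (x : P) : ℝ :=
  min 1 (stat π (good π C p) (ind τ k) F x / (T * π.q))

/-- Multiplicative update of total mass `m`. -/
noncomputable def mw (m : ℝ) (p h : P → ℝ) : P → ℝ :=
  fun x => p x * (1 + h x) * m / (m + ∑ y, p y * h y)

/-- Models reachable in `t` updates. -/
noncomputable def models (π : Pl P L) (C K : ℕ) (τ T s : ℝ) : ℕ → Finset (P → ℝ)
  | 0 => {fun _ => (C * π.q : ℝ) / Fintype.card P}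
  | t + 1 => open Classical in
      models π C K τ T s t ∪
        (models π C K τ T s t ×ˢ (range K ×ˢ small P s)).image
          fun u => mw (C * π.q) u.1 (hfun π C τ T u.1 u.2.1 u.2.2)

theorem models_eq_def_anchor : True := by
  have := @models.eq_def
  trivial

/-- No test fails. -/
def Reg (π : Pl P L) (C K : ℕ) (τ T s θ : ℝ) (B : Finset P) (p : P → ℝ) : Prop :=
  ∀ k < K, ∀ F : Finset P, (F.card : ℝ) ≤ s →
    ∑ x ∈ B, hfun π C τ T p k F x ≤ 2 * ∑ x, p x * hfun π C τ T p k F x + θ * π.q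

/-- The core attached to a set of lines, a level and a sample. -/
noncomputable def core (π : Pl P L) (τ : ℝ) (G : Finset L) (j D : ℕ) (φ : ℝ) (F : Finset P) :
    Finset P :=
  open Classical in univ.filter fun x => φ * π.q ≤ stat π G (fj τ j D) F x

/-- Number of lines of `G` with exactly `j` points of `B`. -/
def lev (π : Pl P L) (G : Finset L) (B : Finset P) (j : ℕ) : ℕ :=
  (G.filter fun l => (B ∩ π.pts l).card = j).card

lemma mem_thru {π : Pl P L} {G : Finset L} {x : P} {l : L} :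
    l ∈ thru π G x ↔ l ∈ G ∧ x ∈ π.pts l := Finset.mem_filter

lemma mem_good {π : Pl P L} {C : ℕ} {p : P → ℝ} {l : L} :
    l ∈ good π C p ↔ ∑ x ∈ π.pts l, p x ≤ 4 * C := by simp [good]

lemma mem_core {π : Pl P L} {τ : ℝ} {G : Finset L} {j D : ℕ} {φ : ℝ} {F : Finset P} {x : P} :
    x ∈ core π τ G j D φ F ↔ φ * π.q ≤ stat π G (fj τ j D) F x := by simp [core]

lemma card_thru_le (π : Pl P L) (G : Finset L) (x : P) : (thru π G x).card ≤ π.q + 1 := by
  rw [← π.card_thru x]
  exact Finset.card_le_card fun l hl => by simp [(mem_thru.1 hl).2]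

/-- Two lines through `x` are disjoint off `x`. -/
lemma disj_erase (π : Pl P L) {x : P} {l l' : L} (h : l ≠ l') (hl : x ∈ π.pts l)
    (hl' : x ∈ π.pts l') : Disjoint ((π.pts l).erase x) ((π.pts l').erase x) := by
  rw [Finset.disjoint_left]
  intro y hy hy'
  have h1 := π.meet l l' h
  have hx : x ∈ π.pts l ∩ π.pts l' := Finset.mem_inter.2 ⟨hl, hl'⟩
  have hy2 : y ∈ π.pts l ∩ π.pts l' :=
    Finset.mem_inter.2 ⟨Finset.mem_of_mem_erase hy, Finset.mem_of_mem_erase hy'⟩
  exact Finset.ne_of_mem_erase hy (Finset.card_le_one.1 h1.le y hy2 x hx)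

/-- Double counting of incidences between a point set and a line set. -/
lemma sum_thru (π : Pl P L) (G : Finset L) (S : Finset P) (u : P → L → ℝ) :
    ∑ x ∈ S, ∑ l ∈ thru π G x, u x l = ∑ l ∈ G, ∑ x ∈ S ∩ π.pts l, u x l := by
  simp only [thru, Finset.sum_filter]
  rw [Finset.sum_comm]
  refine Finset.sum_congr rfl fun l _ => ?_
  rw [← Finset.sum_filter, Finset.filter_mem_eq_inter]

lemma q_pos (π : Pl P L) : (0 : ℝ) < π.q := by
  have := π.two_le
  exact_mod_cast (by omega : 0 < π.q)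

lemma two_le_q (π : Pl P L) : (2 : ℝ) ≤ π.q := by exact_mod_cast π.two_le

lemma cardP_real (π : Pl P L) : (Fintype.card P : ℝ) = (π.q : ℝ) ^ 2 + π.q + 1 := by
  rw [π.cardP]; push_cast; ring

lemma cardL_real (π : Pl P L) : (Fintype.card L : ℝ) = (π.q : ℝ) ^ 2 + π.q + 1 := by
  rw [π.cardL]; push_cast; ring

end Plane

/-- Moment bounds. -/
noncomputable def Ak (C k : ℕ) : ℝ := 2 * (8 * C + 1) ^ k / k.factorial

lemma Ak_pos (C k : ℕ) : 0 < Ak C k := by unfold Ak; positivity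

/-- Constants that do not depend on the plane. -/
structure Par where
  C : ℕ
  J : ℕ
  r : ℕ
  K : ℕ
  κ : ℝ
  ε : ℝ
  T : ℝ
  θ : ℝ
  vt : ℝ
  Am : ℝ
  η : ℕ → ℝ
  C_pos : 1 ≤ C
  J_eq : J = 4 * C
  K_eq : K = 2 * J + 4 * r
  κ_pos : 0 < κ
  ε_pos : 0 < ε
  T_pos : 0 < T
  θ_pos : 0 < θ
  η_pos : ∀ j, 0 < η j
  η_zero_le : ∀ j ≤ J, η 0 ≤ η j
  η_le : ∀ j ≤ J, η j ≤ 1 / (4 * (J + 1))
  η_rec : ∀ j < J, η j = κ * η (j + 1) ^ 3 / (2048 * C ^ 2)
  η_gap : ∀ j < J, ε + 2 * η j ≤ η (j + 1) / (16 * C)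
  tail : ∀ k, 2 * r ≤ k → 48 ^ k * Ak C k ≤ η 0 / 2
  Am_ge : ∀ k ≤ K, Ak C k ≤ Am
  err : ∀ k ≤ K, 3 * ε * C + T * θ ≤ Ak C k
  drop : K * (2 * (4 * C * Am + ε * C) / T + θ) ≤ vt
  vt_le : 2 * vt ≤ η 0

/-- Conditions on the order `q`, the sampling density `τ`, the deviation `e` and the number of
rounds `tm`. -/
structure Qok (a : Par) (q : ℕ) (τ e : ℝ) (tm : ℕ) : Prop where
  τ_pos : 0 < τ
  τ_lt : τ < 1
  half : 1 / 2 ≤ (1 - τ) ^ a.J
  e_nonneg : 0 ≤ e
  e_le : e ≤ 4 * (q + 1)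
  conc : 4 * ((q : ℝ) ^ 2 + q + 1) * Real.exp (-(e ^ 2 / (16 * (q + 1)))) < 1
  acc : (2 / τ) ^ a.K * e ≤ a.ε * q
  rounds : a.C * q * (1 + Real.log (2 * q)) < tm * (a.θ * q / 2)

end Pool.Agent.Lib.AL
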